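import Mathlib

/-!
# Regular resolution and the Set Cover formulas (definitions)
-/

namespace Pool.Agent.Lib.MP_8fffab_lc_RegRes

/-- A clause over the variables `V` is a set of literals; the literal `(x, b)` says that the
variable `x` has the value `b`. -/
abbrev Clause (V : Type) := Set (V × Bool)

/-- A resolution refutation of the set of clauses `Φ` with set of lines `W`: every line carries a
clause; it is either an initial line (its clause contains a clause of `Φ`), or it is obtained by
resolving the variable `x` of the lines `p` and `q` (with weakening allowed).  The dependencies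
are acyclic, and the clause of the line `root` is empty. -/
structure Refutation {V : Type} (Φ : Set (Clause V)) (W : Type) where
  /-- the clause of a line -/
  clause : W → Clause V
  /-- `none` for an initial line, `some (x, p, q)` for a line derived by resolving `x` -/
  rule : W → Option (V × W × W)
  /-- a rank function witnessing that the dependencies are acyclic -/
  height : W → ℕ
  /-- the final line -/
  root : W
  root_empty : clause root = ∅
  initial : ∀ w, rule w = none → ∃ C ∈ Φ, C ⊆ clause w
  resolve : ∀ w x p q, rule w = some (x, p, q) →
    height p < height w ∧ height q < height w ∧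
      clause p ⊆ insert (x, true) (clause w) ∧ clause q ⊆ insert (x, false) (clause w)

/-- `R.Edge u w`: the line `w` is a premise of the line `u`. -/
def Refutation.Edge {V : Type} {Φ : Set (Clause V)} {W : Type} (R : Refutation Φ W)
    (u w : W) : Prop :=
  ∃ x p q, R.rule u = some (x, p, q) ∧ (w = p ∨ w = q)

/-- A refutation is regular if no variable is resolved twice on a path from the root. -/
def Refutation.Regular {V : Type} {Φ : Set (Clause V)} {W : Type} (R : Refutation Φ W) : Prop :=
  ∀ u w x p q p' q', Relation.ReflTransGen R.Edge R.root u → Relation.TransGen R.Edge u w →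
    R.rule u = some (x, p, q) → R.rule w ≠ some (x, p', q')

/-- The formula which says that `k` sets of the family `S` cover `Fin n`.  The variable `(l, A)`
says that the set `S A` is chosen in slot `l`; the clauses say that every `i : Fin n` lies in
a chosen set, and that at most one set is chosen in every slot. -/
def setCoverCNF {n : ℕ} {ι : Type} (S : ι → Finset (Fin n)) (k : ℕ) : Set (Clause (Fin k × ι)) :=
  {C | (∃ i : Fin n, C = {y | y.2 = true ∧ i ∈ S y.1.2}) ∨
    (∃ (l : Fin k) (A B : ι), A ≠ B ∧ C = {((l, A), false), ((l, B), false)})}

/-- All sets of `d` elements of `Fin n`, as a family indexed by itself. -/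
def allSets (n d : ℕ) : {A : Finset (Fin n) // A.card = d} → Finset (Fin n) := fun A => A.1

/-- Some `k` members of the family `S` (repetitions allowed), or fewer, cover `Fin n`. -/
def HasCover {n : ℕ} {ι : Type} (S : ι → Finset (Fin n)) (k : ℕ) : Prop :=
  ∃ T : Finset ι, T.card ≤ k ∧ ∀ i : Fin n, ∃ A ∈ T, i ∈ S A

end Pool.Agent.Lib.MP_8fffab_lc_RegRes
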