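import Mathlib

/-!
# Counting ordered families of disjoint sets
-/

namespace Pool.Agent.Lib.MP_8fffab_lc_RegRes

open Finset

section second

variable {α : Type} [DecidableEq α]

lemma filter_notMem_powersetCard (d : ℕ) (U : Finset α) (x : α) :
    (powersetCard d U).filter (fun A => x ∉ A) = powersetCard d (U.erase x) := by
  ext A
  simp only [mem_filter, mem_powersetCard, subset_erase]
  tauto

lemma card_filter_notMem {d : ℕ} {U : Finset α} {x : α} (hx : x ∈ U) :
    ((powersetCard d U).filter (fun A => x ∉ A)).card = (U.card - 1).choose d := by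
  rw [filter_notMem_powersetCard, card_powersetCard, card_erase_of_mem hx]

lemma card_filter_notMem₂ {d : ℕ} {U : Finset α} {x y : α} (hx : x ∈ U) (hy : y ∈ U)
    (hxy : x ≠ y) :
    ((powersetCard d U).filter (fun A => x ∉ A ∧ y ∉ A)).card = (U.card - 2).choose d := by
  have h : (powersetCard d U).filter (fun A => x ∉ A ∧ y ∉ A)
      = powersetCard d ((U.erase x).erase y) := by
    ext A
    simp only [mem_filter, mem_powersetCard, subset_erase]
    tauto
  rw [h, card_powersetCard, card_erase_of_mem (by simp [hy, hxy.symm]), card_erase_of_mem hx]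
  congr 1

lemma sum_card_sdiff (d : ℕ) (U S : Finset α) (hS : S ⊆ U) :
    ∑ A ∈ powersetCard d U, (S \ A).card = S.card * (U.card - 1).choose d := by
  have : ∀ A, (S \ A).card = ∑ x ∈ S, if x ∉ A then 1 else 0 := by
    intro A
    rw [← card_filter]
    congr 1
    ext x
    simp
  simp_rw [this]
  rw [sum_comm]
  have h : ∀ x ∈ S, (∑ A ∈ powersetCard d U, if x ∉ A then 1 else 0) = (U.card - 1).choose d := by
    intro x hx
    rw [← card_filter, card_filter_notMem (hS hx)]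
  rw [sum_congr rfl h, sum_const, smul_eq_mul]

lemma sum_card_sdiff_sq (d : ℕ) (U S : Finset α) (hS : S ⊆ U) :
    ∑ A ∈ powersetCard d U, (S \ A).card ^ 2 =
      S.card * (U.card - 1).choose d + S.card * (S.card - 1) * (U.card - 2).choose d := by
  have h1 : ∀ A, (S \ A).card ^ 2 =
      ∑ x ∈ S, ∑ y ∈ S, if x ∉ A ∧ y ∉ A then 1 else 0 := by
    intro A
    have h0 : (S \ A).card = ∑ x ∈ S, if x ∉ A then 1 else 0 := by
      rw [← card_filter]
      congr 1
      ext x
      simp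
    rw [sq, h0, sum_mul_sum]
    refine sum_congr rfl fun x _ => sum_congr rfl fun y _ => ?_
    by_cases hx : x ∈ A <;> by_cases hy : y ∈ A <;> simp [hx, hy]
  simp_rw [h1]
  rw [sum_comm]
  have h2 : ∀ x ∈ S, (∑ A ∈ powersetCard d U, ∑ y ∈ S, if x ∉ A ∧ y ∉ A then 1 else 0)
      = (U.card - 1).choose d + (S.card - 1) * (U.card - 2).choose d := by
    intro x hx
    rw [sum_comm, ← add_sum_erase S _ hx]
    congr 1
    · simp only [and_self]
      rw [← card_filter, card_filter_notMem (hS hx)]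
    · have h3 : ∀ y ∈ S.erase x, (∑ A ∈ powersetCard d U, if x ∉ A ∧ y ∉ A then 1 else 0)
          = (U.card - 2).choose d := by
        intro y hy
        rw [← card_filter, card_filter_notMem₂ (hS hx) (hS (mem_of_mem_erase hy))
          (ne_of_mem_erase hy).symm]
      rw [sum_congr rfl h3, sum_const, smul_eq_mul, card_erase_of_mem hx]
  rw [sum_congr rfl h2, sum_const, smul_eq_mul]
  ring

/-- The second moment of the hypergeometric distribution. -/
lemma second_moment (d : ℕ) (U S : Finset α) (hS : S ⊆ U) (hN : 2 ≤ U.card) (hd : d ≤ U.card) :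
    ∑ A ∈ powersetCard d U,
      ((U.card : ℝ) * (S \ A).card - S.card * ((U.card : ℝ) - d)) ^ 2 ≤
      (U.card.choose d : ℝ) * (S.card * d * U.card) := by
  obtain ⟨N, hNN⟩ : ∃ N, U.card = N + 2 := ⟨U.card - 2, by omega⟩
  have hsN : S.card ≤ N + 2 := by rw [← hNN]; exact card_le_card hS
  have e1 : (∑ A ∈ powersetCard d U, ((S \ A).card : ℝ)) = S.card * ((N + 1).choose d : ℝ) := by
    have := sum_card_sdiff d U S hS
    rw [hNN] at this
    have h2 : (((∑ A ∈ powersetCard d U, (S \ A).card : ℕ)) : ℝ)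
        = ((S.card * (N + 2 - 1).choose d : ℕ) : ℝ) := by rw [this]
    push_cast at h2
    exact h2
  rcases Nat.eq_zero_or_pos S.card with hs0 | hs0
  · have hSe : S = ∅ := card_eq_zero.mp hs0
    subst hSe
    simp
  obtain ⟨s, hs⟩ : ∃ s, S.card = s + 1 := ⟨S.card - 1, by omega⟩
  have e2 : (∑ A ∈ powersetCard d U, ((S \ A).card : ℝ) ^ 2)
      = S.card * ((N + 1).choose d : ℝ) + S.card * s * (N.choose d : ℝ) := by
    have := sum_card_sdiff_sq d U S hS
    rw [hNN] at this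
    have h2 : (((∑ A ∈ powersetCard d U, (S \ A).card ^ 2 : ℕ)) : ℝ)
        = ((S.card * (N + 2 - 1).choose d + S.card * (S.card - 1) * (N + 2 - 2).choose d : ℕ) : ℝ)
        := by rw [this]
    rw [hs] at h2 ⊢
    push_cast at h2
    simpa using h2
  have e3 : ∑ A ∈ powersetCard d U,
      ((U.card : ℝ) * (S \ A).card - S.card * ((U.card : ℝ) - d)) ^ 2
      = (U.card : ℝ) ^ 2 * (∑ A ∈ powersetCard d U, ((S \ A).card : ℝ) ^ 2)
        - 2 * U.card * S.card * ((U.card : ℝ) - d) * (∑ A ∈ powersetCard d U, ((S \ A).card : ℝ))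
        + (U.card.choose d : ℝ) * (S.card * ((U.card : ℝ) - d)) ^ 2 := by
    have hc : (U.card.choose d : ℝ) * (S.card * ((U.card : ℝ) - d)) ^ 2
        = ∑ _A ∈ powersetCard d U, (S.card * ((U.card : ℝ) - d)) ^ 2 := by
      rw [sum_const, card_powersetCard, nsmul_eq_mul]
    rw [hc, mul_sum, mul_sum, ← sum_sub_distrib, ← sum_add_distrib]
    refine sum_congr rfl fun A _ => ?_
    ring
  rw [e3, e1, e2, hNN, hs]
  -- binomial relations
  have r1 : ((N + 1).choose d : ℝ) * (N + 2) = ((N + 2).choose d : ℝ) * ((N : ℝ) + 2 - d) := by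
    have h := Nat.choose_mul_succ_eq (N + 1) d
    have h' : (((N + 1).choose d * (N + 1 + 1) : ℕ) : ℝ)
        = (((N + 1 + 1).choose d * (N + 1 + 1 - d) : ℕ) : ℝ) := by rw [h]
    rw [Nat.cast_mul, Nat.cast_mul, Nat.cast_sub (by omega)] at h'
    push_cast at h'
    have e : (N : ℝ) + 1 + 1 = N + 2 := by ring
    rw [e] at h'
    exact h'
  have r2 : (N.choose d : ℝ) * (N + 1) = ((N + 1).choose d : ℝ) * ((N : ℝ) + 1 - d) := by
    rcases Nat.lt_or_ge (N + 1) d with hlt | hge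
    · have : (N + 1).choose d = 0 := Nat.choose_eq_zero_of_lt hlt
      have h0 : N.choose d = 0 := Nat.choose_eq_zero_of_lt (by omega)
      rw [this, h0]
      simp
    · have h := Nat.choose_mul_succ_eq N d
      have h' : ((N.choose d * (N + 1) : ℕ) : ℝ)
          = (((N + 1).choose d * (N + 1 - d) : ℕ) : ℝ) := by rw [h]
      rw [Nat.cast_mul, Nat.cast_mul, Nat.cast_sub hge] at h'
      push_cast at h'
      exact h'
  set K : ℝ := ((N + 2).choose d : ℝ) with hK
  set K1 : ℝ := ((N + 1).choose d : ℝ) with hK1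
  set K2 : ℝ := (N.choose d : ℝ) with hK2
  have hKn : 0 ≤ K := by positivity
  have hdN : (d : ℝ) ≤ N + 2 := by rw [hNN] at hd; exact_mod_cast hd
  have hsN' : (s : ℝ) + 1 ≤ N + 2 := by rw [hs] at hsN; exact_mod_cast hsN
  have hN0 : (0 : ℝ) ≤ N := Nat.cast_nonneg N
  have hs0' : (0 : ℝ) ≤ s := Nat.cast_nonneg s
  have hd0 : (0 : ℝ) ≤ d := Nat.cast_nonneg d
  push_cast
  -- multiply by N + 1
  have key : ((N : ℝ) + 1) * (((N : ℝ) + 2) ^ 2 * (((s : ℝ) + 1) * K1 + (s + 1) * s * K2)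
      - 2 * (N + 2) * (s + 1) * ((N : ℝ) + 2 - d) * ((s + 1) * K1)
      + K * ((s + 1) * ((N : ℝ) + 2 - d)) ^ 2)
      = K * (s + 1) * d * ((N : ℝ) + 2 - d) * (N + 1 - s) := by
    have h1 : ((N : ℝ) + 2) ^ 2 * ((s + 1) * s * K2) * (N + 1)
        = (N + 2) * ((s + 1) * s) * ((N : ℝ) + 1 - d) * (K * ((N : ℝ) + 2 - d)) := by
      rw [← r1]
      calc ((N : ℝ) + 2) ^ 2 * ((s + 1) * s * K2) * (N + 1)
          = (N + 2) ^ 2 * ((s + 1) * s) * (K2 * (N + 1)) := by ring
        _ = (N + 2) ^ 2 * ((s + 1) * s) * (K1 * ((N : ℝ) + 1 - d)) := by rw [r2]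
        _ = _ := by ring
    have h2 : ((N : ℝ) + 2) ^ 2 * (((s : ℝ) + 1) * K1)
        = (N + 2) * (s + 1) * (K * ((N : ℝ) + 2 - d)) := by
      rw [← r1]; ring
    have h3 : 2 * ((N : ℝ) + 2) * (s + 1) * ((N : ℝ) + 2 - d) * ((s + 1) * K1)
        = 2 * (s + 1) * ((N : ℝ) + 2 - d) * (s + 1) * (K * ((N : ℝ) + 2 - d)) := by
      rw [← r1]; ring
    calc _ = ((N : ℝ) + 1) * (((N : ℝ) + 2) ^ 2 * (((s : ℝ) + 1) * K1))
          + ((N : ℝ) + 2) ^ 2 * ((s + 1) * s * K2) * (N + 1)
          - (N + 1) * (2 * ((N : ℝ) + 2) * (s + 1) * ((N : ℝ) + 2 - d) * ((s + 1) * K1))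
          + (N + 1) * (K * ((s + 1) * ((N : ℝ) + 2 - d)) ^ 2) := by ring
      _ = _ := by rw [h1, h2, h3]; ring
  have hle : K * (s + 1) * d * ((N : ℝ) + 2 - d) * (N + 1 - s)
      ≤ ((N : ℝ) + 1) * (K * ((s + 1) * d * (N + 2))) := by
    have h1 : (0 : ℝ) ≤ K * (s + 1) * d := by positivity
    have h2 : ((N : ℝ) + 2 - d) * (N + 1 - s) ≤ (N + 2) * (N + 1) := by
      apply mul_le_mul <;> linarith
    calc K * (s + 1) * d * ((N : ℝ) + 2 - d) * (N + 1 - s)
        = K * (s + 1) * d * (((N : ℝ) + 2 - d) * (N + 1 - s)) := by ring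
      _ ≤ K * (s + 1) * d * ((N + 2) * (N + 1)) := mul_le_mul_of_nonneg_left h2 h1
      _ = _ := by ring
  rw [← key] at hle
  have hpos : (0 : ℝ) < N + 1 := by positivity
  exact le_of_mul_le_mul_left hle hpos

end second

end Pool.Agent.Lib.MP_8fffab_lc_RegRes
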