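import Mathlib
import Pool.Agent.Lib.MP_8fffab_lc_RegRes.Counting

/-!
# Counting ordered families of disjoint sets, II
-/

namespace Pool.Agent.Lib.MP_8fffab_lc_RegRes

open Finset

variable {m n : ℕ}

/-- the elements used by a family of slots -/
def used (D : Fin m → Finset (Fin n)) : Finset (Fin n) := univ.biUnion D

/-- the families which agree with `E` outside of `Q` and have disjoint `d`-sets in the slots
of `Q` -/
def Ext (d : ℕ) (E : Fin m → Finset (Fin n)) (Q : Finset (Fin m)) :
    Finset (Fin m → Finset (Fin n)) :=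
  univ.filter fun D => (∀ l, l ∉ Q → D l = E l) ∧ (∀ l ∈ Q, (D l).card = d) ∧
    ∀ l l', l ≠ l' → Disjoint (D l) (D l')

lemma mem_Ext {d : ℕ} {E : Fin m → Finset (Fin n)} {Q : Finset (Fin m)}
    {D : Fin m → Finset (Fin n)} : D ∈ Ext d E Q ↔ (∀ l, l ∉ Q → D l = E l) ∧
      (∀ l ∈ Q, (D l).card = d) ∧ ∀ l l', l ≠ l' → Disjoint (D l) (D l') := by
  simp [Ext]

lemma mem_used {D : Fin m → Finset (Fin n)} {x : Fin n} : x ∈ used D ↔ ∃ l, x ∈ D l := by
  simp [used]

lemma update_mem_Ext {d : ℕ} {E : Fin m → Finset (Fin n)} {Q : Finset (Fin m)} {l : Fin m}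
    (hl : l ∉ Q) {D : Fin m → Finset (Fin n)} (hD : D ∈ Ext d E Q) (hDl : D l = ∅)
    {A : Finset (Fin n)} (hA : A ∈ powersetCard d (univ \ used D)) :
    Function.update D l A ∈ Ext d E (insert l Q) := by
  rw [mem_Ext] at hD ⊢
  obtain ⟨h1, h2, h3⟩ := hD
  rw [mem_powersetCard] at hA
  have hdis : ∀ l', Disjoint A (D l') := by
    intro l'
    rw [Finset.disjoint_left]
    intro x hx hx'
    have := hA.1 hx
    rw [mem_sdiff] at this
    exact this.2 (mem_used.mpr ⟨l', hx'⟩)
  refine ⟨?_, ?_, ?_⟩
  · intro l' hl'
    rw [mem_insert, not_or] at hl'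
    rw [Function.update_of_ne hl'.1]
    exact h1 l' hl'.2
  · intro l' hl'
    by_cases h : l' = l
    · subst h
      rw [Function.update_self]
      exact hA.2
    · rw [Function.update_of_ne h]
      exact h2 l' ((mem_insert.mp hl').resolve_left h)
  · intro l₁ l₂ h12
    by_cases h : l₁ = l
    · subst h
      rw [Function.update_self, Function.update_of_ne h12.symm]
      exact hdis l₂
    · rw [Function.update_of_ne h]
      by_cases h' : l₂ = l
      · subst h'
        rw [Function.update_self]
        exact (hdis l₁).symm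
      · rw [Function.update_of_ne h']
        exact h3 l₁ l₂ h12

lemma update_empty_mem_Ext {d : ℕ} {E : Fin m → Finset (Fin n)} {Q : Finset (Fin m)} {l : Fin m}
    (hl : l ∉ Q) (hE : E l = ∅) {D : Fin m → Finset (Fin n)} (hD : D ∈ Ext d E (insert l Q)) :
    Function.update D l ∅ ∈ Ext d E Q ∧
      D l ∈ powersetCard d (univ \ used (Function.update D l ∅)) := by
  rw [mem_Ext] at hD
  obtain ⟨h1, h2, h3⟩ := hD
  constructor
  · rw [mem_Ext]
    refine ⟨?_, ?_, ?_⟩
    · intro l' hl'
      by_cases h : l' = l
      · subst h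
        rw [Function.update_self, hE]
      · rw [Function.update_of_ne h]
        exact h1 l' (by simp [h, hl'])
    · intro l' hl'
      have h : l' ≠ l := by rintro rfl; exact hl hl'
      rw [Function.update_of_ne h]
      exact h2 l' (mem_insert_of_mem hl')
    · intro l₁ l₂ h12
      by_cases h : l₁ = l
      · subst h
        rw [Function.update_self]
        exact disjoint_empty_left _
      · rw [Function.update_of_ne h]
        by_cases h' : l₂ = l
        · subst h'
          rw [Function.update_self]
          exact disjoint_empty_right _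
        · rw [Function.update_of_ne h']
          exact h3 l₁ l₂ h12
  · rw [mem_powersetCard]
    refine ⟨?_, h2 l (mem_insert_self _ _)⟩
    intro x hx
    rw [mem_sdiff]
    refine ⟨mem_univ _, ?_⟩
    rw [mem_used]
    rintro ⟨l', hl'⟩
    by_cases h : l' = l
    · subst h
      rw [Function.update_self] at hl'
      exact notMem_empty _ hl'
    · rw [Function.update_of_ne h] at hl'
      exact (Finset.disjoint_left.mp (h3 l l' (Ne.symm h))) hx hl'

lemma sum_Ext_insert {M : Type*} [AddCommMonoid M] (d : ℕ) (E : Fin m → Finset (Fin n))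
    (Q : Finset (Fin m)) (l : Fin m) (hl : l ∉ Q) (hE : E l = ∅)
    (g : (Fin m → Finset (Fin n)) → M) :
    ∑ D ∈ Ext d E (insert l Q), g D =
      ∑ D ∈ Ext d E Q, ∑ A ∈ powersetCard d (univ \ used D), g (Function.update D l A) := by
  rw [sum_sigma']
  refine sum_bij' (fun D _ => ⟨Function.update D l ∅, D l⟩)
    (fun p _ => Function.update p.1 l p.2) ?_ ?_ ?_ ?_ ?_
  · intro D hD
    rw [mem_sigma]
    exact update_empty_mem_Ext hl hE hD
  · rintro ⟨D, A⟩ hp
    rw [mem_sigma] at hp
    have hDl : D l = ∅ := ((mem_Ext.mp hp.1).1 l hl).trans hE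
    exact update_mem_Ext hl hp.1 hDl hp.2
  · intro D _
    simp
  · rintro ⟨D, A⟩ hp
    rw [mem_sigma] at hp
    have hDl : D l = ∅ := ((mem_Ext.mp hp.1).1 l hl).trans hE
    simp only [Function.update_idem, Function.update_self, Sigma.mk.injEq, heq_eq_eq, and_true]
    rw [Function.update_eq_self_iff, hDl]
  · intro D _
    simp

lemma card_used_of_disjoint {D : Fin m → Finset (Fin n)}
    (h : ∀ l l', l ≠ l' → Disjoint (D l) (D l')) : (used D).card = ∑ l, (D l).card := by
  rw [used, card_biUnion]
  intro x _ y _ hxy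
  exact h x y hxy

lemma card_used {d : ℕ} {E : Fin m → Finset (Fin n)} {Q : Finset (Fin m)}
    (hE : ∀ l ∈ Q, E l = ∅) {D : Fin m → Finset (Fin n)} (hD : D ∈ Ext d E Q) :
    (used D).card = (used E).card + Q.card * d := by
  rw [mem_Ext] at hD
  obtain ⟨h1, h2, h3⟩ := hD
  have hEd : ∀ l l', l ≠ l' → Disjoint (E l) (E l') := by
    intro l l' hll
    by_cases h : l ∈ Q
    · rw [hE l h]; exact disjoint_empty_left _
    · by_cases h' : l' ∈ Q
      · rw [hE l' h']; exact disjoint_empty_right _
      · rw [← h1 l h, ← h1 l' h']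
        exact h3 l l' hll
  rw [card_used_of_disjoint h3, card_used_of_disjoint hEd,
    ← sum_add_sum_compl Q (fun l => (D l).card), ← sum_add_sum_compl Q (fun l => (E l).card)]
  have e1 : ∑ l ∈ Q, (D l).card = Q.card * d := by
    rw [sum_congr rfl h2, sum_const, smul_eq_mul]
  have e2 : ∑ l ∈ Q, (E l).card = 0 := by
    apply sum_eq_zero
    intro l hl
    rw [hE l hl, card_empty]
  have e3 : ∑ l ∈ Qᶜ, (D l).card = ∑ l ∈ Qᶜ, (E l).card := by
    refine sum_congr rfl fun l hl => ?_
    rw [h1 l (by simpa using hl)]
  rw [e1, e2, e3]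
  ring

/-- the number of ordered families of `q` disjoint `d`-sets in a set of `u` elements -/
def cnt (d : ℕ) : ℕ → ℕ → ℕ
  | 0, _ => 1
  | q + 1, u => cnt d q u * (u - q * d).choose d

lemma cnt_add (d q q' u : ℕ) : cnt d (q + q') u = cnt d q u * cnt d q' (u - q * d) := by
  induction q' with
  | zero => simp [cnt]
  | succ k ih =>
    rw [← add_assoc, cnt, ih, cnt, mul_assoc]
    congr 3
    rw [add_mul, Nat.sub_sub]

lemma cnt_factorial (d q u : ℕ) (h : q * d ≤ u) :
    cnt d q u * d.factorial ^ q * (u - q * d).factorial = u.factorial := by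
  induction q with
  | zero => simp [cnt]
  | succ k ih =>
    have h1 : k * d ≤ u := le_trans (Nat.mul_le_mul_right d (Nat.le_succ k)) h
    have h2 : d ≤ u - k * d := by
      have : (k + 1) * d = k * d + d := by ring
      omega
    have h3 := Nat.choose_mul_factorial_mul_factorial h2
    have h4 : u - k * d - d = u - (k + 1) * d := by
      have : (k + 1) * d = k * d + d := by ring
      omega
    rw [h4] at h3
    rw [← ih h1, ← h3, cnt, pow_succ]
    ring

lemma cnt_pos (d q u : ℕ) (h : q * d ≤ u) : 0 < cnt d q u := by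
  by_contra hc
  have h0 : cnt d q u = 0 := by omega
  have := cnt_factorial d q u h
  rw [h0] at this
  simp at this
  exact absurd this.symm (Nat.factorial_ne_zero u)

lemma card_univ_sdiff_used (D : Fin m → Finset (Fin n)) :
    (univ \ used D).card = n - (used D).card := by
  rw [card_sdiff_of_subset (subset_univ _), card_univ, Fintype.card_fin]

lemma card_Ext (d : ℕ) (E : Fin m → Finset (Fin n)) (Q : Finset (Fin m))
    (hE : ∀ l ∈ Q, E l = ∅) (hEd : ∀ l l', l ≠ l' → Disjoint (E l) (E l')) :
    (Ext d E Q).card = cnt d Q.card (n - (used E).card) := by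
  induction Q using Finset.induction_on with
  | empty =>
    have : Ext d E ∅ = {E} := by
      ext D
      rw [mem_Ext, mem_singleton]
      constructor
      · rintro ⟨h1, _, _⟩
        funext l
        exact h1 l (notMem_empty _)
      · rintro rfl
        exact ⟨fun _ _ => rfl, fun l hl => absurd hl (notMem_empty _), hEd⟩
    rw [this, card_singleton, card_empty]
    rfl
  | insert l Q hl ih =>
    have hE' : ∀ l' ∈ Q, E l' = ∅ := fun l' h => hE l' (mem_insert_of_mem h)
    have ih' := ih hE'
    rw [card_insert_of_notMem hl, cnt, ← ih', card_eq_sum_ones, card_eq_sum_ones,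
      sum_Ext_insert d E Q l hl (hE l (mem_insert_self _ _)), sum_mul]
    refine sum_congr rfl fun D hD => ?_
    rw [← card_eq_sum_ones, card_powersetCard, card_univ_sdiff_used, card_used hE' hD, one_mul,
      Nat.sub_sub]

/-- restriction of a family to the slots of `Q` -/
def restr (D : Fin m → Finset (Fin n)) (Q : Finset (Fin m)) : Fin m → Finset (Fin n) :=
  fun l => if l ∈ Q then D l else ∅

/-- the set of all critical families -/
def Om (m n d : ℕ) : Finset (Fin m → Finset (Fin n)) := Ext d (fun _ => ∅) univ

lemma mem_Om {d : ℕ} {D : Fin m → Finset (Fin n)} : D ∈ Om m n d ↔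
    (∀ l, (D l).card = d) ∧ ∀ l l', l ≠ l' → Disjoint (D l) (D l') := by
  rw [Om, mem_Ext]
  simp

lemma restr_mem {d : ℕ} {D : Fin m → Finset (Fin n)} (hD : D ∈ Om m n d) (Q : Finset (Fin m)) :
    restr D Q ∈ Ext d (fun _ => ∅) Q := by
  rw [mem_Om] at hD
  rw [mem_Ext]
  refine ⟨fun l hl => by simp [restr, hl], fun l hl => by simp [restr, hl, hD.1 l], ?_⟩
  intro l l' hll
  unfold restr
  split_ifs
  · exact hD.2 l l' hll
  · exact disjoint_empty_right _
  · exact disjoint_empty_left _
  · exact disjoint_empty_left _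

lemma mem_Ext_restr {d : ℕ} {D : Fin m → Finset (Fin n)} (hD : D ∈ Om m n d)
    (Q : Finset (Fin m)) : D ∈ Ext d (restr D Q) Qᶜ := by
  rw [mem_Om] at hD
  rw [mem_Ext]
  refine ⟨fun l hl => ?_, fun l _ => hD.1 l, hD.2⟩
  have : l ∈ Q := by simpa using hl
  simp [restr, this]

lemma sum_Om_restr {M : Type*} [AddCommMonoid M] (d : ℕ) (Q : Finset (Fin m))
    (g : (Fin m → Finset (Fin n)) → M) :
    ∑ D ∈ Om m n d, g D =
      ∑ E ∈ Ext d (fun _ => ∅) Q, ∑ D ∈ Ext d E Qᶜ, g D := by
  rw [← sum_fiberwise_of_maps_to (g := fun D => restr D Q) (fun D hD => restr_mem hD Q)]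
  refine sum_congr rfl fun E hE => ?_
  refine sum_congr ?_ fun _ _ => rfl
  rw [mem_Ext] at hE
  ext D
  rw [mem_filter]
  constructor
  · rintro ⟨hD, hr⟩
    rw [← hr]
    exact mem_Ext_restr hD Q
  · intro hD
    rw [mem_Ext] at hD
    constructor
    · rw [mem_Om]
      refine ⟨fun l => ?_, hD.2.2⟩
      by_cases h : l ∈ Q
      · rw [hD.1 l (by simpa using h)]
        exact hE.2.1 l h
      · exact hD.2.1 l (by simpa using h)
    · funext l
      unfold restr
      split_ifs with h
      · exact hD.1 l (by simpa using h)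
      · exact (hE.1 l h).symm

/-- extending by slots on which the weight does not depend -/
lemma sum_Ext_union (d : ℕ) (E : Fin m → Finset (Fin n)) (Q T : Finset (Fin m))
    (hQT : Disjoint Q T) (hE : ∀ l ∈ Q ∪ T, E l = ∅) (g : (Fin m → Finset (Fin n)) → ℝ)
    (hg : ∀ D l A, l ∉ T → g (Function.update D l A) = g D) :
    ∑ D ∈ Ext d E (Q ∪ T), g D =
      (∑ D ∈ Ext d E T, g D) * (cnt d Q.card (n - ((used E).card + T.card * d)) : ℝ) := by
  induction Q using Finset.induction_on with
  | empty => simp [cnt]
  | insert l Q hl ih =>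
    rw [disjoint_insert_left] at hQT
    have hl' : l ∉ Q ∪ T := by
      rw [mem_union, not_or]
      exact ⟨hl, hQT.1⟩
    rw [insert_union, sum_Ext_insert d E (Q ∪ T) l hl' (hE l (by simp)), card_insert_of_notMem hl,
      cnt]
    have hE' : ∀ l' ∈ Q ∪ T, E l' = ∅ := fun l' h => hE l' (by
      rw [insert_union]; exact mem_insert_of_mem h)
    have h1 : ∀ D ∈ Ext d E (Q ∪ T), (∑ A ∈ powersetCard d (univ \ used D),
        g (Function.update D l A)) =
        g D * ((n - ((used E).card + T.card * d) - Q.card * d).choose d : ℝ) := by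
      intro D hD
      have h2 : ∀ A ∈ powersetCard d (univ \ used D), g (Function.update D l A) = g D :=
        fun A _ => hg D l A hQT.1
      rw [sum_congr rfl h2, sum_const, card_powersetCard, card_univ_sdiff_used,
        card_used hE' hD, card_union_of_disjoint hQT.2, nsmul_eq_mul, mul_comm]
      have h3 : n - ((used E).card + (Q.card + T.card) * d)
          = n - ((used E).card + T.card * d) - Q.card * d := by
        rw [Nat.sub_sub]
        congr 1
        ring
      rw [h3]
    rw [sum_congr rfl h1, ← sum_mul, ih hQT.2 hE', Nat.cast_mul]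
    ring

lemma cheb {d s₀ : ℕ} {δ : ℝ} (hd : 1 ≤ d) (hδ : 0 < δ) (hδd : 2 * (s₀ : ℝ) ≤ δ * d)
    (U Z : Finset (Fin n)) (hU : d + 1 ≤ U.card) (hZ : δ * U.card ≤ ((Z ∩ U).card : ℝ)) :
    (((powersetCard d U).filter (fun A => (Z ∩ A).card < s₀)).card : ℝ) ≤
      4 / (δ ^ 2 * d) * (U.card.choose d : ℝ) := by
  have hsm := second_moment d U (Z ∩ U) inter_subset_right (by omega) (by omega)
  have hsub : ∑ A ∈ (powersetCard d U).filter (fun A => (Z ∩ A).card < s₀),
      ((U.card : ℝ) * ((Z ∩ U) \ A).card - (Z ∩ U).card * ((U.card : ℝ) - d)) ^ 2 ≤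
      ∑ A ∈ powersetCard d U,
      ((U.card : ℝ) * ((Z ∩ U) \ A).card - (Z ∩ U).card * ((U.card : ℝ) - d)) ^ 2 :=
    sum_le_sum_of_subset_of_nonneg (filter_subset _ _) (fun _ _ _ => sq_nonneg _)
  have hU0 : (0 : ℝ) < U.card := by
    have : 0 < U.card := by omega
    exact_mod_cast this
  have hd0 : (0 : ℝ) < d := by exact_mod_cast hd
  have hlow : ∀ A ∈ (powersetCard d U).filter (fun A => (Z ∩ A).card < s₀),
      ((U.card : ℝ) * (δ * d / 2)) ^ 2 ≤
      ((U.card : ℝ) * ((Z ∩ U) \ A).card - (Z ∩ U).card * ((U.card : ℝ) - d)) ^ 2 := by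
    intro A hA
    rw [mem_filter, mem_powersetCard] at hA
    have hZA : (Z ∩ U) ∩ A = Z ∩ A := by
      rw [inter_assoc, inter_eq_right.mpr hA.1.1]
    have hc : ((Z ∩ U) \ A).card + (Z ∩ A).card = (Z ∩ U).card := by
      rw [← hZA]
      exact card_sdiff_add_card_inter _ _
    have hc' : (((Z ∩ U) \ A).card : ℝ) = (Z ∩ U).card - (Z ∩ A).card := by
      rw [← hc]; push_cast; ring
    have hx : ((Z ∩ A).card : ℝ) ≤ s₀ := by exact_mod_cast hA.2.le
    rw [hc']
    have e : (U.card : ℝ) * ((Z ∩ U).card - (Z ∩ A).card) - (Z ∩ U).card * ((U.card : ℝ) - d)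
        = (Z ∩ U).card * d - U.card * (Z ∩ A).card := by ring
    rw [e]
    apply pow_le_pow_left₀ (by positivity)
    have h1 : δ * U.card * d ≤ (Z ∩ U).card * d := mul_le_mul_of_nonneg_right hZ hd0.le
    have h2 : (U.card : ℝ) * (Z ∩ A).card ≤ U.card * (δ * d / 2) := by
      apply mul_le_mul_of_nonneg_left _ hU0.le
      linarith
    nlinarith
  have hcard := card_nsmul_le_sum _ _ _ hlow
  rw [nsmul_eq_mul] at hcard
  have hs : ((Z ∩ U).card : ℝ) ≤ U.card := by exact_mod_cast card_le_card inter_subset_right
  have hfin : (((powersetCard d U).filter (fun A => (Z ∩ A).card < s₀)).card : ℝ) *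
      ((U.card : ℝ) * (δ * d / 2)) ^ 2 ≤ (U.card.choose d : ℝ) * (U.card * d * U.card) := by
    refine (hcard.trans (hsub.trans hsm)).trans ?_
    apply mul_le_mul_of_nonneg_left _ (Nat.cast_nonneg _)
    apply mul_le_mul_of_nonneg_right _ hU0.le
    exact mul_le_mul_of_nonneg_right hs hd0.le
  have hpos : (0 : ℝ) < ((U.card : ℝ) * (δ * d / 2)) ^ 2 := by positivity
  rw [← le_div_iff₀ hpos] at hfin
  refine hfin.trans (le_of_eq ?_)
  field_simp
  ring

lemma light_count {d s₀ : ℕ} {δ : ℝ} (hd : 1 ≤ d) (hδ : 0 < δ) (hδd : 2 * (s₀ : ℝ) ≤ δ * d)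
    (E : Fin m → Finset (Fin n)) (T : Finset (Fin m)) (hE : ∀ l ∈ T, E l = ∅)
    (Z : Finset (Fin n)) (hsize : (used E).card + T.card * d + 1 ≤ n)
    (hZ : δ * ((n : ℝ) - (used E).card) ≤ ((Z \ used E).card : ℝ)) :
    ∑ D ∈ Ext d E T, (if ∀ l ∈ T, (Z ∩ D l).card < s₀ then (1 : ℝ) else 0) ≤
      (4 / (δ ^ 2 * d)) ^ T.card * (cnt d T.card (n - (used E).card) : ℝ) := by
  induction T using Finset.induction_on with
  | empty =>
    have hsub : Ext d E ∅ ⊆ {E} := by
      intro D hD
      rw [mem_Ext] at hD
      rw [mem_singleton]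
      funext l
      exact hD.1 l (notMem_empty _)
    calc _ ≤ ∑ D ∈ Ext d E ∅, (1 : ℝ) := by
          apply sum_le_sum
          intro D _
          split_ifs <;> norm_num
      _ = ((Ext d E ∅).card : ℝ) := by simp
      _ ≤ (({E} : Finset (Fin m → Finset (Fin n))).card : ℝ) := by
          exact_mod_cast card_le_card hsub
      _ = _ := by simp [cnt]
  | insert l T hl ih =>
    have hE' : ∀ l' ∈ T, E l' = ∅ := fun l' h => hE l' (mem_insert_of_mem h)
    rw [card_insert_of_notMem hl] at hsize ⊢
    have hsize' : (used E).card + T.card * d + d + 1 ≤ n := by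
      have : (T.card + 1) * d = T.card * d + d := by ring
      omega
    have ih' := ih hE' (by omega)
    have hp0 : (0 : ℝ) ≤ 4 / (δ ^ 2 * d) := by positivity
    rw [sum_Ext_insert d E T l hl (hE l (mem_insert_self _ _)), cnt, pow_succ]
    have hstep : ∀ D ∈ Ext d E T, (∑ A ∈ powersetCard d (univ \ used D),
        (if ∀ l' ∈ insert l T, (Z ∩ (Function.update D l A) l').card < s₀ then (1 : ℝ) else 0)) ≤
        (if ∀ l ∈ T, (Z ∩ D l).card < s₀ then (1 : ℝ) else 0) *
          (4 / (δ ^ 2 * d) * ((n - (used E).card - T.card * d).choose d : ℝ)) := by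
      intro D hD
      have hcu := card_used hE' hD
      have hcard : (univ \ used D).card = n - (used E).card - T.card * d := by
        rw [card_univ_sdiff_used, hcu, Nat.sub_sub]
      split_ifs with hlight
      · rw [one_mul, ← hcard]
        have hZ' : δ * ((univ \ used D).card : ℝ) ≤ ((Z ∩ (univ \ used D)).card : ℝ) := by
          have h1 : Z ∩ (univ \ used D) = Z \ used D := by
            ext x; simp
          have h2 : (Z \ used E) ⊆ (Z \ used D) ∪ T.biUnion (fun l => Z ∩ D l) := by
            intro x hx
            rw [mem_sdiff] at hx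
            rw [mem_union, mem_sdiff, mem_biUnion]
            by_cases h : x ∈ used D
            · right
              obtain ⟨l', hl'⟩ := mem_used.mp h
              refine ⟨l', ?_, mem_inter.mpr ⟨hx.1, hl'⟩⟩
              by_contra hc
              rw [(mem_Ext.mp hD).1 l' hc] at hl'
              exact hx.2 (mem_used.mpr ⟨l', hl'⟩)
            · left
              exact ⟨hx.1, h⟩
          have h3 : (Z \ used E).card ≤ (Z \ used D).card + T.card * s₀ := by
            refine (card_le_card h2).trans ((card_union_le _ _).trans ?_)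
            apply Nat.add_le_add_left
            refine card_biUnion_le.trans ?_
            rw [← smul_eq_mul, ← sum_const]
            exact sum_le_sum fun l hl => (hlight l hl).le
          have h3' : ((Z \ used E).card : ℝ) ≤ (Z \ used D).card + T.card * s₀ := by
            exact_mod_cast h3
          rw [h1]
          have h4 : (((univ \ used D).card : ℕ) : ℝ) = (n : ℝ) - (used E).card - T.card * d := by
            rw [hcard, Nat.sub_sub, Nat.cast_sub (by omega)]
            push_cast
            ring
          rw [h4]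
          have h5 : (T.card : ℝ) * s₀ ≤ δ * (T.card * d) := by
            have : (s₀ : ℝ) ≤ δ * d := by
              have : (0 : ℝ) ≤ s₀ := Nat.cast_nonneg _
              linarith
            calc (T.card : ℝ) * s₀ ≤ T.card * (δ * d) :=
                  mul_le_mul_of_nonneg_left this (Nat.cast_nonneg _)
              _ = _ := by ring
          have e : δ * ((n : ℝ) - (used E).card - T.card * d)
              = δ * ((n : ℝ) - (used E).card) - δ * (T.card * d) := by ring
          rw [e]
          linarith
        have hch := cheb hd hδ hδd (univ \ used D) Z (by rw [hcard]; omega) hZ'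
        refine le_trans ?_ hch
        rw [card_filter, Nat.cast_sum]
        apply sum_le_sum
        intro A _
        split_ifs with h1 h2
        · simp
        · exfalso
          have := h1 l (mem_insert_self _ _)
          rw [Function.update_self] at this
          exact h2 this
        · simp
        · simp
      · rw [zero_mul]
        apply le_of_eq
        apply sum_eq_zero
        intro A _
        rw [if_neg]
        intro hc
        apply hlight
        intro l' hl'
        have := hc l' (mem_insert_of_mem hl')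
        rw [Function.update_of_ne (by rintro rfl; exact hl hl')] at this
        exact this
    refine (sum_le_sum hstep).trans ?_
    rw [← sum_mul, Nat.cast_mul]
    calc (∑ D ∈ Ext d E T, (if ∀ l ∈ T, (Z ∩ D l).card < s₀ then (1 : ℝ) else 0)) *
          (4 / (δ ^ 2 * d) * ((n - (used E).card - T.card * d).choose d : ℝ))
        ≤ ((4 / (δ ^ 2 * d)) ^ T.card * (cnt d T.card (n - (used E).card) : ℝ)) *
          (4 / (δ ^ 2 * d) * ((n - (used E).card - T.card * d).choose d : ℝ)) := by
          apply mul_le_mul_of_nonneg_right ih'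
          positivity
      _ = _ := by ring

lemma used_empty : used (fun _ => ∅ : Fin m → Finset (Fin n)) = ∅ := by
  ext x
  simp [mem_used]

lemma sub_count (d : ℕ) (T : Finset (Fin m)) (Z : Finset (Fin n)) :
    ∑ D ∈ Ext d (fun _ => ∅) T, (if ∀ l ∈ T, D l ⊆ Z then (1 : ℝ) else 0) ≤
      (cnt d T.card Z.card : ℝ) := by
  induction T using Finset.induction_on with
  | empty =>
    have hsub : Ext (m := m) (n := n) d (fun _ => ∅) ∅ ⊆ {fun _ => ∅} := by
      intro D hD
      rw [mem_Ext] at hD
      rw [mem_singleton]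
      funext l
      exact hD.1 l (notMem_empty _)
    calc _ ≤ ∑ D ∈ Ext (m := m) (n := n) d (fun _ => ∅) ∅, (1 : ℝ) := by
          apply sum_le_sum
          intro D _
          split_ifs <;> norm_num
      _ = ((Ext (m := m) (n := n) d (fun _ => ∅) ∅).card : ℝ) := by simp
      _ ≤ (({fun _ => ∅} : Finset (Fin m → Finset (Fin n))).card : ℝ) := by
          exact_mod_cast card_le_card hsub
      _ = _ := by simp [cnt]
  | insert l T hl ih =>
    rw [card_insert_of_notMem hl, sum_Ext_insert d (fun _ => ∅) T l hl rfl, cnt]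
    have hstep : ∀ D ∈ Ext d (fun _ => ∅) T, (∑ A ∈ powersetCard d (univ \ used D),
        (if ∀ l' ∈ insert l T, (Function.update D l A) l' ⊆ Z then (1 : ℝ) else 0)) ≤
        (if ∀ l ∈ T, D l ⊆ Z then (1 : ℝ) else 0) *
          ((Z.card - T.card * d).choose d : ℝ) := by
      intro D hD
      split_ifs with hZ
      · rw [one_mul]
        have hcu : (used D).card = T.card * d := by
          have := card_used (E := fun _ => ∅) (fun _ _ => rfl) hD
          rw [this, used_empty]
          simp
        have hus : used D ⊆ Z := by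
          intro x hx
          obtain ⟨l', hl'⟩ := mem_used.mp hx
          by_cases h : l' ∈ T
          · exact hZ l' h hl'
          · rw [(mem_Ext.mp hD).1 l' h] at hl'
            exact absurd hl' (notMem_empty _)
        have hc : (Z \ used D).card = Z.card - T.card * d := by
          rw [card_sdiff_of_subset hus, hcu]
        rw [← hc, ← card_powersetCard, card_eq_sum_ones, Nat.cast_sum]
        have hsubs : powersetCard d (Z \ used D) ⊆ powersetCard d (univ \ used D) :=
          powersetCard_mono (sdiff_subset_sdiff (subset_univ _) (subset_refl _))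
        rw [← sum_filter_add_sum_filter_not (powersetCard d (univ \ used D)) (fun A => A ⊆ Z)]
        have hz : ∑ A ∈ (powersetCard d (univ \ used D)).filter (fun A => ¬ A ⊆ Z),
            (if ∀ l' ∈ insert l T, (Function.update D l A) l' ⊆ Z then (1 : ℝ) else 0) = 0 := by
          apply sum_eq_zero
          intro A hA
          rw [if_neg]
          intro hc
          have := hc l (mem_insert_self _ _)
          rw [Function.update_self] at this
          exact (mem_filter.mp hA).2 this
        rw [hz, add_zero]
        have hf : (powersetCard d (univ \ used D)).filter (fun A => A ⊆ Z)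
            = powersetCard d (Z \ used D) := by
          ext A
          simp only [mem_filter, mem_powersetCard]
          constructor
          · rintro ⟨⟨h1, h2⟩, h3⟩
            refine ⟨fun x hx => ?_, h2⟩
            rw [mem_sdiff]
            exact ⟨h3 hx, (mem_sdiff.mp (h1 hx)).2⟩
          · rintro ⟨h1, h2⟩
            exact ⟨⟨fun x hx => mem_sdiff.mpr ⟨mem_univ _, (mem_sdiff.mp (h1 hx)).2⟩, h2⟩,
              fun x hx => (mem_sdiff.mp (h1 hx)).1⟩
        rw [hf]
        apply sum_le_sum
        intro A _
        split_ifs <;> simp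
      · rw [zero_mul]
        apply le_of_eq
        apply sum_eq_zero
        intro A _
        rw [if_neg]
        intro hc
        apply hZ
        intro l' hl'
        have := hc l' (mem_insert_of_mem hl')
        rw [Function.update_of_ne (by rintro rfl; exact hl hl')] at this
        exact this
    refine (sum_le_sum hstep).trans ?_
    rw [← sum_mul, Nat.cast_mul]
    exact mul_le_mul_of_nonneg_right ih (Nat.cast_nonneg _)

end Pool.Agent.Lib.MP_8fffab_lc_RegRes
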