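import Mathlib
import Pool.Agent.Lib.MP_8fffab_lc_RegRes.Defs
import Pool.Agent.Lib.MP_8fffab_lc_RegRes.Ext

/-!
# Runs of partial assignments through a regular refutation
-/

namespace Pool.Agent.Lib.MP_8fffab_lc_RegRes

open Finset

variable {m n d : ℕ} {W : Type}

section run

variable (R : Refutation (setCoverCNF (allSets n d) m) W)

/-- one step: go to the premise which is falsified -/
def step (D : Fin m → Finset (Fin n)) (w : W) : W :=
  match R.rule w with
  | none => w
  | some (x, p, q) => if D x.1 = x.2.1 then q else p

/-- the run of a partial assignment -/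
def path (D : Fin m → Finset (Fin n)) (t : ℕ) : W := (step R D)^[t] R.root

lemma path_succ (D : Fin m → Finset (Fin n)) (t : ℕ) :
    path R D (t + 1) = step R D (path R D t) := Function.iterate_succ_apply' _ _ _

lemma path_zero (D : Fin m → Finset (Fin n)) : path R D 0 = R.root := rfl

lemma step_none {D : Fin m → Finset (Fin n)} {w : W} (h : R.rule w = none) :
    step R D w = w := by
  unfold step
  rw [h]

lemma step_some {D : Fin m → Finset (Fin n)} {w : W} {x p q} (h : R.rule w = some (x, p, q)) :
    step R D w = if D x.1 = x.2.1 then q else p := by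
  unfold step
  rw [h]

lemma path_leaf {D : Fin m → Finset (Fin n)} {t : ℕ} (h : R.rule (path R D t) = none) (s : ℕ) :
    path R D (t + s) = path R D t := by
  induction s with
  | zero => rfl
  | succ k ih => rw [← add_assoc, path_succ, ih, step_none R h]

lemma exists_leaf (D : Fin m → Finset (Fin n)) :
    ∃ t, R.rule (path R D t) = none := by
  by_contra hc
  push Not at hc
  have h : ∀ t, R.height (path R D t) + t ≤ R.height R.root := by
    intro t
    induction t with
    | zero => simp [path_zero]
    | succ k ih =>
      obtain ⟨⟨x, p, q⟩, hx⟩ := Option.ne_none_iff_exists'.mp (hc k)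
      have h1 := R.resolve _ x p q hx
      rw [path_succ, step_some R hx]
      split_ifs
      · omega
      · omega
  have := h (R.height R.root + 1)
  omega

lemma exists_leaf_ge (D : Fin m → Finset (Fin n)) (t₀ : ℕ) :
    ∃ t, t₀ ≤ t ∧ R.rule (path R D t) = none := by
  obtain ⟨t, ht⟩ := exists_leaf R D
  refine ⟨t + t₀, by omega, ?_⟩
  rw [path_leaf R ht t₀, ht]

lemma edge_step {D : Fin m → Finset (Fin n)} {w : W} {x p q} (h : R.rule w = some (x, p, q)) :
    R.Edge w (step R D w) := by
  refine ⟨x, p, q, h, ?_⟩
  rw [step_some R h]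
  split_ifs
  · exact Or.inr rfl
  · exact Or.inl rfl

lemma reach (D : Fin m → Finset (Fin n)) {s t : ℕ} (h : s ≤ t) :
    Relation.ReflTransGen R.Edge (path R D s) (path R D t) := by
  induction t, h using Nat.le_induction with
  | base => exact Relation.ReflTransGen.refl
  | succ k _ ih =>
    rw [path_succ]
    rcases h : R.rule (path R D k) with _ | ⟨x, p, q⟩
    · rw [step_none R h]
      exact ih
    · exact ih.tail (edge_step R h)

/-- the literals of the clause of a visited line are false -/
lemma falsify (D : Fin m → Finset (Fin n)) (t : ℕ) (x) (b : Bool)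
    (h : (x, b) ∈ R.clause (path R D t)) : decide (D x.1 = x.2.1) ≠ b := by
  induction t generalizing x b with
  | zero =>
    rw [path_zero, R.root_empty] at h
    exact absurd h (Set.notMem_empty _)
  | succ k ih =>
    rw [path_succ] at h
    rcases hr : R.rule (path R D k) with _ | ⟨y, p, q⟩
    · rw [step_none R hr] at h
      exact ih x b h
    · rw [step_some R hr] at h
      have h1 := R.resolve _ y p q hr
      split_ifs at h with hy
      · rcases h1.2.2.2 h with h2 | h2
        · rw [Prod.mk.injEq] at h2
          rw [h2.1, h2.2]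
          simp [hy]
        · exact ih x b h2
      · rcases h1.2.2.1 h with h2 | h2
        · rw [Prod.mk.injEq] at h2
          rw [h2.1, h2.2]
          simp [hy]
        · exact ih x b h2

lemma leaf_clause (D : Fin m → Finset (Fin n)) (t : ℕ) (h : R.rule (path R D t) = none) :
    ∃ j : Fin n, ∀ (l : Fin m) (A : {A : Finset (Fin n) // A.card = d}), j ∈ A.1 →
      ((l, A), true) ∈ R.clause (path R D t) := by
  obtain ⟨C, hC, hsub⟩ := R.initial _ h
  rcases hC with ⟨j, rfl⟩ | ⟨l, A, B, hAB, rfl⟩
  · refine ⟨j, fun l A hA => hsub ⟨rfl, hA⟩⟩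
  · exfalso
    have h1 := falsify R D t (l, A) false (hsub (by simp))
    have h2 := falsify R D t (l, B) false (hsub (by simp))
    simp only [ne_eq, decide_eq_false_iff_not, not_not] at h1 h2
    exact hAB (Subtype.ext (h1.symm.trans h2))

/-- a positive literal persists towards the root until it is resolved -/
lemma persist (D : Fin m → Finset (Fin n)) {t₁ t₂ : ℕ} (h12 : t₁ ≤ t₂)
    (x : Fin m × {A : Finset (Fin n) // A.card = d})
    (hx : (x, true) ∈ R.clause (path R D t₂))
    (hno : ∀ t, t₁ ≤ t → t < t₂ → ∀ p q, R.rule (path R D t) ≠ some (x, p, q)) :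
    (x, true) ∈ R.clause (path R D t₁) := by
  induction t₂, h12 using Nat.le_induction with
  | base => exact hx
  | succ k hk ih =>
    refine ih ?_ fun t h1 h2 => hno t h1 (by omega)
    rw [path_succ] at hx
    rcases hr : R.rule (path R D k) with _ | ⟨y, p, q⟩
    · rw [step_none R hr] at hx
      exact hx
    · rw [step_some R hr] at hx
      have hne : x ≠ y := by
        rintro rfl
        exact hno k hk (by omega) p q hr
      have h1 := R.resolve _ y p q hr
      split_ifs at hx with hy
      · rcases h1.2.2.2 hx with h2 | h2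
        · rw [Prod.mk.injEq] at h2
          exact absurd h2.1 hne
        · exact h2
      · rcases h1.2.2.1 hx with h2 | h2
        · rw [Prod.mk.injEq] at h2
          exact absurd h2.1 hne
        · exact h2

/-- `(l, A)` is queried before time `t` -/
def Queried (D : Fin m → Finset (Fin n)) (t : ℕ) (l : Fin m) (A : Finset (Fin n)) : Prop :=
  ∃ s, s < t ∧ ∃ (hA : A.card = d) (p q : W), R.rule (path R D s) = some ((l, ⟨A, hA⟩), p, q)

/-- the leaf case: everything containing the uncovered element has been queried -/
lemma leaf_queried (D : Fin m → Finset (Fin n)) (t : ℕ) {j : Fin n}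
    (hj : ∀ (l : Fin m) (A : {A : Finset (Fin n) // A.card = d}), j ∈ A.1 →
      ((l, A), true) ∈ R.clause (path R D t)) (l : Fin m) (A : Finset (Fin n)) (hA : A.card = d)
    (hjA : j ∈ A) : Queried R D t l A := by
  by_contra hc
  have h := persist R D (Nat.zero_le t) (l, ⟨A, hA⟩) (hj l ⟨A, hA⟩ hjA) (by
    intro s _ hs p q hr
    exact hc ⟨s, hs, hA, p, q, hr⟩)
  rw [path_zero, R.root_empty] at h
  exact absurd h (Set.notMem_empty _)

lemma leaf_notMem (D : Fin m → Finset (Fin n)) (t : ℕ) {j : Fin n}
    (hj : ∀ (l : Fin m) (A : {A : Finset (Fin n) // A.card = d}), j ∈ A.1 →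
      ((l, A), true) ∈ R.clause (path R D t)) (l : Fin m) (hA : (D l).card = d) : j ∉ D l := by
  intro hjA
  have := falsify R D t (l, ⟨D l, hA⟩) true (hj l ⟨D l, hA⟩ hjA)
  simp at this

open Classical in
/-- the slots whose set has been found before time `t` -/
noncomputable def placed (D : Fin m → Finset (Fin n)) (t : ℕ) : Finset (Fin m) :=
  univ.filter fun l => Queried R D t l (D l)

lemma mem_placed {D : Fin m → Finset (Fin n)} {t : ℕ} {l : Fin m} :
    l ∈ placed R D t ↔ Queried R D t l (D l) := by
  simp [placed]

/-- The main consequence of regularity. -/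
lemma claim_one (hreg : R.Regular) {D D' : Fin m → Finset (Fin n)} {t t' : ℕ}
    (hpath : path R D t = path R D' t') {l : Fin m} (hl : l ∈ placed R D t) {j : Fin n}
    {t₂ : ℕ} (ht₂ : t' ≤ t₂)
    (hj : ∀ (l : Fin m) (A : {A : Finset (Fin n) // A.card = d}), j ∈ A.1 →
      ((l, A), true) ∈ R.clause (path R D' t₂)) : j ∉ D l := by
  intro hjD
  rw [mem_placed] at hl
  obtain ⟨s, hs, hA, p, q, hr⟩ := hl
  have hx := hj l ⟨D l, hA⟩ hjD
  have hper := persist R D' ht₂ (l, ⟨D l, hA⟩) hx (by
    intro τ h1 h2 p' q' hr'
    have e1 : Relation.TransGen R.Edge (path R D s) (path R D (s + 1)) := by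
      rw [path_succ]
      exact Relation.TransGen.single (edge_step R hr)
    have e2 := e1.trans_left (reach R D (show s + 1 ≤ t by omega))
    rw [hpath] at e2
    have e3 := e2.trans_left (reach R D' h1)
    have e0 : Relation.ReflTransGen R.Edge R.root (path R D s) := reach R D (Nat.zero_le s)
    exact hreg _ _ _ p q p' q' e0 e3 hr hr')
  rw [← hpath] at hper
  have := falsify R D t _ _ hper
  simp at this

lemma placed_mono (D : Fin m → Finset (Fin n)) {s t : ℕ} (h : s ≤ t) :
    placed R D s ⊆ placed R D t := by
  intro l hl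
  rw [mem_placed] at hl ⊢
  obtain ⟨s', hs', h'⟩ := hl
  exact ⟨s', by omega, h'⟩

lemma placed_zero (D : Fin m → Finset (Fin n)) : placed R D 0 = ∅ := by
  ext l
  rw [mem_placed]
  simp [Queried]

/-- the stopping condition -/
def StopCond (a : ℕ) (D : Fin m → Finset (Fin n)) (t : ℕ) : Prop :=
  a ≤ (placed R D t).card ∨ R.rule (path R D t) = none

lemma exists_stop (a : ℕ) (D : Fin m → Finset (Fin n)) : ∃ t, StopCond R a D t := by
  obtain ⟨t, ht⟩ := exists_leaf R D
  exact ⟨t, Or.inr ht⟩

open Classical in
/-- the stopping time -/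
noncomputable def stopTime (a : ℕ) (D : Fin m → Finset (Fin n)) : ℕ := Nat.find (exists_stop R a D)

/-- the line at the stopping time -/
noncomputable def stopLine (a : ℕ) (D : Fin m → Finset (Fin n)) : W := path R D (stopTime R a D)

lemma stopTime_spec (a : ℕ) (D : Fin m → Finset (Fin n)) : StopCond R a D (stopTime R a D) := by
  classical
  exact Nat.find_spec (exists_stop R a D)

lemma stopTime_min {a : ℕ} {D : Fin m → Finset (Fin n)} {t : ℕ} (h : t < stopTime R a D) :
    ¬ StopCond R a D t := by
  classical
  exact Nat.find_min (exists_stop R a D) h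

lemma stopTime_eq {a : ℕ} {D : Fin m → Finset (Fin n)} {t : ℕ} (h1 : StopCond R a D t)
    (h2 : ∀ s, s < t → ¬ StopCond R a D s) : stopTime R a D = t := by
  rcases lt_trichotomy (stopTime R a D) t with h | h | h
  · exact absurd (stopTime_spec R a D) (h2 _ h)
  · exact h
  · exact absurd h1 (stopTime_min R h)

/-- the slots placed at the stopping time -/
noncomputable def stopPlaced (a : ℕ) (D : Fin m → Finset (Fin n)) : Finset (Fin m) :=
  placed R D (stopTime R a D)

lemma card_stopPlaced_le (a : ℕ) (D : Fin m → Finset (Fin n)) :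
    (stopPlaced R a D).card ≤ a := by
  unfold stopPlaced
  rcases hT : stopTime R a D with _ | t
  · rw [placed_zero]; simp
  · have h1 := stopTime_min R (show t < stopTime R a D by omega)
    unfold StopCond at h1
    rw [not_or, not_le] at h1
    obtain ⟨⟨x, p, q⟩, hx⟩ := Option.ne_none_iff_exists'.mp h1.2
    have hsub : placed R D (t + 1) ⊆ insert x.1 (placed R D t) := by
      intro l hl
      rw [mem_placed] at hl
      obtain ⟨s, hs, hA, p', q', hr⟩ := hl
      rw [mem_insert]
      rcases Nat.lt_succ_iff_lt_or_eq.mp hs with h | h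
      · right
        rw [mem_placed]
        exact ⟨s, h, hA, p', q', hr⟩
      · left
        subst h
        rw [hx, Option.some.injEq, Prod.mk.injEq] at hr
        rw [hr.1]
    have := (card_le_card hsub).trans (card_insert_le _ _)
    omega

lemma card_stopPlaced_eq {a : ℕ} {D : Fin m → Finset (Fin n)}
    (h : R.rule (stopLine R a D) ≠ none) : (stopPlaced R a D).card = a := by
  apply le_antisymm (card_stopPlaced_le R a D)
  rcases stopTime_spec R a D with h1 | h1
  · exact h1
  · exact absurd h1 h

lemma card_of_mem_stopPlaced {a : ℕ} {D : Fin m → Finset (Fin n)} {l : Fin m}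
    (h : l ∈ stopPlaced R a D) : (D l).card = d := by
  unfold stopPlaced at h
  rw [mem_placed] at h
  obtain ⟨_, _, hA, _⟩ := h
  exact hA

/-- Two assignments which agree on all queries of the first one before its stopping time have the
same run until the stopping time. -/
lemma agree (a : ℕ) {D D' : Fin m → Finset (Fin n)}
    (h : ∀ s, s < stopTime R a D → ∀ x p q, R.rule (path R D s) = some (x, p, q) →
      (D x.1 = x.2.1 ↔ D' x.1 = x.2.1)) :
    (∀ s, s ≤ stopTime R a D → path R D' s = path R D s) ∧
      stopTime R a D' = stopTime R a D ∧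
      (∀ s, s ≤ stopTime R a D → placed R D' s = placed R D s) := by
  have h1 : ∀ s, s ≤ stopTime R a D → path R D' s = path R D s := by
    intro s
    induction s with
    | zero => intro _; rfl
    | succ k ih =>
      intro hk
      rw [path_succ, path_succ, ih (by omega)]
      rcases hr : R.rule (path R D k) with _ | ⟨x, p, q⟩
      · rw [step_none R hr, step_none R hr]
      · rw [step_some R hr, step_some R hr]
        simp only [h k (by omega) x p q hr]
  have h2 : ∀ s, s ≤ stopTime R a D → placed R D' s = placed R D s := by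
    intro s hs
    ext l
    rw [mem_placed, mem_placed]
    constructor
    · rintro ⟨s', hs', hA, p, q, hr⟩
      rw [h1 s' (by omega)] at hr
      have h3 := (h s' (by omega) _ p q hr).mpr rfl
      dsimp only at h3
      refine ⟨s', hs', by rw [h3]; exact hA, p, q, ?_⟩
      rw [hr]
      simp [h3]
    · rintro ⟨s', hs', hA, p, q, hr⟩
      have h3 := (h s' (by omega) _ p q hr).mp rfl
      dsimp only at h3
      refine ⟨s', hs', by rw [h3]; exact hA, p, q, ?_⟩
      rw [h1 s' (by omega), hr]
      simp [h3]
  refine ⟨h1, ?_, h2⟩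
  apply stopTime_eq
  · have := stopTime_spec R a D
    unfold StopCond at this ⊢
    rw [h1 _ le_rfl, h2 _ le_rfl]
    exact this
  · intro t ht
    have := stopTime_min R ht
    unfold StopCond at this ⊢
    rw [h1 _ ht.le, h2 _ ht.le]
    exact this

end run

end Pool.Agent.Lib.MP_8fffab_lc_RegRes
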