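import Mathlib
import Pool.Agent.Lib.MP_8fffab_lc_RegRes.Run

/-!
# The window argument
-/

namespace Pool.Agent.Lib.MP_8fffab_lc_RegRes

open Finset

variable {m n d : ℕ} {W : Type}

section window

variable (R : Refutation (setCoverCNF (allSets n d) m) W)

/-- hiding a slot which is not placed at the stopping time does not change the run -/
lemma hide (hd : 1 ≤ d) (a : ℕ) {D : Fin m → Finset (Fin n)} {l : Fin m}
    (hl : l ∉ stopPlaced R a D) :
    (∀ s, s ≤ stopTime R a D → path R (Function.update D l ∅) s = path R D s) ∧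
      stopTime R a (Function.update D l ∅) = stopTime R a D ∧
      (∀ s, s ≤ stopTime R a D → placed R (Function.update D l ∅) s = placed R D s) := by
  apply agree
  rintro s hs ⟨l₁, A₁, hA₁⟩ p q hr
  dsimp only
  by_cases h : l₁ = l
  · subst h
    rw [Function.update_self]
    constructor
    · intro h1
      exfalso
      apply hl
      unfold stopPlaced
      rw [mem_placed]
      subst h1
      exact ⟨s, hs, hA₁, p, q, hr⟩
    · intro h1
      exfalso
      rw [← h1, card_empty] at hA₁
      omega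
  · rw [Function.update_of_ne h]

/-- adding a set which has not been queried does not change the run -/
lemma unhide (hd : 1 ≤ d) (a : ℕ) {E : Fin m → Finset (Fin n)} {l : Fin m} (hE : E l = ∅)
    {A : Finset (Fin n)} (hA : ¬ Queried R E (stopTime R a E) l A) :
    (∀ s, s ≤ stopTime R a E → path R (Function.update E l A) s = path R E s) ∧
      stopTime R a (Function.update E l A) = stopTime R a E ∧
      (∀ s, s ≤ stopTime R a E → placed R (Function.update E l A) s = placed R E s) := by
  apply agree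
  rintro s hs ⟨l₁, A₁, hA₁⟩ p q hr
  dsimp only
  by_cases h : l₁ = l
  · subst h
    rw [Function.update_self]
    constructor
    · intro h1
      exfalso
      rw [← h1, hE, card_empty] at hA₁
      omega
    · intro h1
      exfalso
      apply hA
      subst h1
      exact ⟨s, hs, hA₁, p, q, hr⟩
  · rw [Function.update_of_ne h]

/-- the two descriptions of unqueried sets -/
lemma notMem_stopPlaced_iff (hd : 1 ≤ d) (a : ℕ) {E : Fin m → Finset (Fin n)} {l : Fin m}
    (hE : E l = ∅) (A : Finset (Fin n)) (hA : A.card = d) :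
    l ∉ stopPlaced R a (Function.update E l A) ↔ ¬ Queried R E (stopTime R a E) l A := by
  constructor
  · intro h hq
    obtain ⟨h1, h2, h3⟩ := hide R hd a h
    have hup : Function.update (Function.update E l A) l ∅ = E := by
      rw [Function.update_idem, Function.update_eq_self_iff]
      exact hE.symm
    rw [hup] at h1 h2 h3
    apply h
    unfold stopPlaced
    rw [mem_placed, Function.update_self]
    obtain ⟨s, hs, hA', p, q, hr⟩ := hq
    rw [h2] at hs
    refine ⟨s, hs, hA', p, q, ?_⟩
    rw [← h1 s hs.le]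
    exact hr
  · intro h hmem
    obtain ⟨h1, h2, h3⟩ := unhide R hd a hE h
    unfold stopPlaced at hmem
    rw [h2, h3 _ le_rfl, mem_placed, hE] at hmem
    obtain ⟨_, _, hA', _⟩ := hmem
    rw [card_empty] at hA'
    omega

open Classical in
/-- the elements in sets which have been found by critical assignments before the line `v` -/
noncomputable def Zset (v : W) : Finset (Fin n) :=
  univ.filter fun j => ∃ D ∈ Om m n d, ∃ t, path R D t = v ∧ ∃ l ∈ placed R D t, j ∈ D l

lemma mem_Zset {v : W} {j : Fin n} : j ∈ Zset R v ↔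
    ∃ D ∈ Om m n d, ∃ t, path R D t = v ∧ ∃ l ∈ placed R D t, j ∈ D l := by
  simp [Zset]

lemma subset_Zset {D : Fin m → Finset (Fin n)} (hD : D ∈ Om m n d) (a : ℕ) {l : Fin m}
    (hl : l ∈ stopPlaced R a D) : D l ⊆ Zset R (stopLine R a D) := by
  intro j hj
  rw [mem_Zset]
  exact ⟨D, hD, _, rfl, l, hl, hj⟩

/-- the hole of a critical assignment which visits `v` is not in `Zset v` -/
lemma hole_notMem (hn : n = m * d + 1) (hreg : R.Regular) {D : Fin m → Finset (Fin n)}
    (hD : D ∈ Om m n d) (t : ℕ) {j : Fin n} (hj : j ∉ used D) :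
    j ∉ Zset R (path R D t) := by
  rw [mem_Zset]
  rintro ⟨D₁, hD₁, t₁, hp, l₁, hl₁, hj₁⟩
  obtain ⟨t₂, ht₂, hleaf⟩ := exists_leaf_ge R D t
  obtain ⟨j', hj'⟩ := leaf_clause R D t₂ hleaf
  have hj'u : j' ∉ used D := by
    rw [mem_used]
    rintro ⟨l, hl⟩
    exact leaf_notMem R D t₂ hj' l ((mem_Om.mp hD).1 l) hl
  have hcard : (univ \ used D).card ≤ 1 := by
    rw [card_univ_sdiff_used, card_used_of_disjoint (mem_Om.mp hD).2,
      sum_congr rfl (fun l _ => (mem_Om.mp hD).1 l), sum_const, card_univ, Fintype.card_fin,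
      smul_eq_mul]
    omega
  have hjj : j = j' := by
    rw [card_le_one] at hcard
    exact hcard j (by simp [hj]) j' (by simp [hj'u])
  subst hjj
  exact claim_one R hreg hp hl₁ ht₂ hj' hj₁

open Classical in
/-- the unqueried sets of the slot `l` -/
noncomputable def Free (a : ℕ) (E : Fin m → Finset (Fin n)) (l : Fin m) :
    Finset (Finset (Fin n)) :=
  (powersetCard d (univ \ used E)).filter fun A => ¬ Queried R E (stopTime R a E) l A

lemma mem_Free {a : ℕ} {E : Fin m → Finset (Fin n)} {l : Fin m} {A : Finset (Fin n)} :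
    A ∈ Free R a E l ↔ A ∈ powersetCard d (univ \ used E) ∧
      ¬ Queried R E (stopTime R a E) l A := by
  simp [Free]

section pair

variable {l l' : Fin m}

lemma compl_pair (hll : l ≠ l') : insert l' (insert l ({l, l'}ᶜ : Finset (Fin m))) = univ := by
  ext x
  simp only [mem_insert, mem_compl, mem_singleton, mem_univ, iff_true]
  tauto

lemma card_U (hn : n = m * d + 1) (hll : l ≠ l') {E : Fin m → Finset (Fin n)}
    (hE : E ∈ Ext d (fun _ => ∅) ({l, l'}ᶜ : Finset (Fin m))) :
    (univ \ used E).card = 2 * d + 1 := by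
  have h := card_used (E := fun _ => ∅) (fun _ _ => rfl) hE
  rw [used_empty, card_empty, zero_add, card_compl, card_pair hll, Fintype.card_fin] at h
  rw [card_univ_sdiff_used, h, hn]
  have h2 : 2 ≤ m := by
    have := card_le_univ ({l, l'} : Finset (Fin m))
    rw [card_pair hll, Fintype.card_fin] at this
    exact this
  obtain ⟨k, rfl⟩ : ∃ k, m = k + 2 := ⟨m - 2, by omega⟩
  have : (k + 2) * d = k * d + 2 * d := by ring
  rw [this]
  simp only [Nat.add_sub_cancel]
  omega

lemma used_update {E : Fin m → Finset (Fin n)} (hE : E l = ∅) (A : Finset (Fin n)) :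
    used (Function.update E l A) = used E ∪ A := by
  ext x
  rw [mem_used, mem_union, mem_used]
  constructor
  · rintro ⟨l₁, h⟩
    by_cases h1 : l₁ = l
    · subst h1
      rw [Function.update_self] at h
      exact Or.inr h
    · rw [Function.update_of_ne h1] at h
      exact Or.inl ⟨l₁, h⟩
  · rintro (⟨l₁, h⟩ | h)
    · have h1 : l₁ ≠ l := by
        rintro rfl
        rw [hE] at h
        exact notMem_empty _ h
      exact ⟨l₁, by rwa [Function.update_of_ne h1]⟩
    · exact ⟨l, by rwa [Function.update_self]⟩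

lemma pair_mem (hll : l ≠ l') {E : Fin m → Finset (Fin n)}
    (hE : E ∈ Ext d (fun _ => ∅) ({l, l'}ᶜ : Finset (Fin m))) {A B : Finset (Fin n)}
    (hA : A ∈ powersetCard d (univ \ used E))
    (hB : B ∈ powersetCard d (univ \ used (Function.update E l A))) :
    Function.update (Function.update E l A) l' B ∈ Om m n d := by
  have hEl : E l = ∅ := (mem_Ext.mp hE).1 l (by simp)
  have hEl' : E l' = ∅ := (mem_Ext.mp hE).1 l' (by simp)
  have h1 := update_mem_Ext (l := l) (by simp) hE hEl hA
  have h2 := update_mem_Ext (l := l') (by simp [hll.symm]) h1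
    (by rw [Function.update_of_ne hll.symm]; exact hEl') hB
  rw [compl_pair hll] at h2
  exact h2

/-- both sets unqueried: the run does not change -/
lemma both_free (hd : 1 ≤ d) (a : ℕ) (hll : l ≠ l') {E : Fin m → Finset (Fin n)}
    (hE : E ∈ Ext d (fun _ => ∅) ({l, l'}ᶜ : Finset (Fin m))) {A B : Finset (Fin n)}
    (hA : ¬ Queried R E (stopTime R a E) l A) (hB : ¬ Queried R E (stopTime R a E) l' B) :
    (∀ s, s ≤ stopTime R a E →
        path R (Function.update (Function.update E l A) l' B) s = path R E s) ∧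
      stopTime R a (Function.update (Function.update E l A) l' B) = stopTime R a E ∧
      (∀ s, s ≤ stopTime R a E →
        placed R (Function.update (Function.update E l A) l' B) s = placed R E s) := by
  have hEl : E l = ∅ := (mem_Ext.mp hE).1 l (by simp)
  have hEl' : E l' = ∅ := (mem_Ext.mp hE).1 l' (by simp)
  obtain ⟨h1, h2, h3⟩ := unhide R hd a hEl hA
  have hB' : ¬ Queried R (Function.update E l A) (stopTime R a (Function.update E l A)) l' B := by
    rintro ⟨s, hs, hB'', p, q, hr⟩
    rw [h2] at hs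
    rw [h1 s hs.le] at hr
    exact hB ⟨s, hs, hB'', p, q, hr⟩
  have hEl'' : Function.update E l A l' = ∅ := by rw [Function.update_of_ne hll.symm]; exact hEl'
  obtain ⟨k1, k2, k3⟩ := unhide R hd a hEl'' hB'
  rw [h2] at k1 k2 k3
  refine ⟨fun s hs => (k1 s hs).trans (h1 s hs), k2, fun s hs => (k3 s hs).trans (h3 s hs)⟩

lemma free_notMem_Zset (hn : n = m * d + 1) (hd : 1 ≤ d) (hreg : R.Regular) (a : ℕ)
    (hll : l ≠ l') {E : Fin m → Finset (Fin n)}
    (hE : E ∈ Ext d (fun _ => ∅) ({l, l'}ᶜ : Finset (Fin m))) {A B : Finset (Fin n)}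
    (hA : A ∈ Free R a E l) (hB : B ∈ Free R a E l') (hAB : Disjoint A B) {j : Fin n}
    (hj : j ∈ univ \ used E) (hjA : j ∉ A) (hjB : j ∉ B) : j ∉ Zset R (stopLine R a E) := by
  rw [mem_Free] at hA hB
  have hEl : E l = ∅ := (mem_Ext.mp hE).1 l (by simp)
  have hEl' : E l' = ∅ := (mem_Ext.mp hE).1 l' (by simp)
  have hB1 : B ∈ powersetCard d (univ \ used (Function.update E l A)) := by
    rw [mem_powersetCard, used_update hEl] at *
    refine ⟨fun x hx => ?_, hB.1.2⟩
    have := hB.1.1 hx
    rw [mem_sdiff] at this ⊢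
    rw [mem_union, not_or]
    exact ⟨mem_univ _, this.2, fun h => (Finset.disjoint_left.mp hAB) h hx⟩
  have hD := pair_mem hll hE hA.1 hB1
  obtain ⟨h1, _, _⟩ := both_free R hd a hll hE hA.2 hB.2
  have hju : j ∉ used (Function.update (Function.update E l A) l' B) := by
    rw [used_update (by rw [Function.update_of_ne hll.symm]; exact hEl'), used_update hEl,
      mem_union, mem_union]
    rw [mem_sdiff] at hj
    tauto
  have := hole_notMem R hn hreg hD (stopTime R a E) hju
  rw [h1 _ le_rfl] at this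
  exact this

/-- the leaf case -/
lemma card_Free_leaf (hn : n = m * d + 1) (a : ℕ) (hll : l ≠ l') {E : Fin m → Finset (Fin n)}
    (hE : E ∈ Ext d (fun _ => ∅) ({l, l'}ᶜ : Finset (Fin m)))
    (hleaf : R.rule (stopLine R a E) = none) (l₁ : Fin m) :
    (Free R a E l₁).card ≤ (2 * d).choose d := by
  obtain ⟨j, hj⟩ := leaf_clause R E (stopTime R a E) hleaf
  have hjU : j ∈ univ \ used E := by
    rw [mem_sdiff]
    refine ⟨mem_univ _, ?_⟩
    rw [mem_used]
    rintro ⟨l₂, h₂⟩
    by_cases h : l₂ ∈ ({l, l'}ᶜ : Finset (Fin m))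
    · exact leaf_notMem R E _ hj l₂ ((mem_Ext.mp hE).2.1 l₂ h) h₂
    · rw [(mem_Ext.mp hE).1 l₂ h] at h₂
      exact notMem_empty _ h₂
  have hsub : Free R a E l₁ ⊆ powersetCard d ((univ \ used E).erase j) := by
    intro A hA
    rw [mem_Free, mem_powersetCard] at hA
    rw [mem_powersetCard, subset_erase]
    refine ⟨⟨hA.1.1, ?_⟩, hA.1.2⟩
    intro hjA
    exact hA.2 (leaf_queried R E _ hj l₁ A hA.1.2 hjA)
  refine (card_le_card hsub).trans ?_
  rw [card_powersetCard, card_erase_of_mem hjU, card_U hn hll hE]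
  simp

/-- complement pairing -/
lemma card_Free_pair (hn : n = m * d + 1) (hd : 1 ≤ d) (hreg : R.Regular) (a : ℕ)
    (hll : l ≠ l') {E : Fin m → Finset (Fin n)}
    (hE : E ∈ Ext d (fun _ => ∅) ({l, l'}ᶜ : Finset (Fin m))) {j : Fin n}
    (hj : j ∈ univ \ used E) (hjZ : j ∈ Zset R (stopLine R a E)) :
    ((Free R a E l).filter (fun A => j ∉ A)).card +
      ((Free R a E l').filter (fun A => j ∉ A)).card ≤ (2 * d).choose d := by
  classical
  set U := univ \ used E with hU
  have hUc : U.card = 2 * d + 1 := card_U hn hll hE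
  have hUj : (U.erase j).card = 2 * d := by rw [card_erase_of_mem hj, hUc]; simp
  have h1 : (Free R a E l).filter (fun A => j ∉ A) ⊆ powersetCard d (U.erase j) := by
    intro A hA
    rw [mem_filter, mem_Free, mem_powersetCard] at hA
    rw [mem_powersetCard, subset_erase]
    exact ⟨⟨hA.1.1.1, hA.2⟩, hA.1.1.2⟩
  have h2 : ((Free R a E l').filter (fun A => j ∉ A)).image (fun B => U.erase j \ B) ⊆
      powersetCard d (U.erase j) := by
    intro C hC
    rw [mem_image] at hC
    obtain ⟨B, hB, rfl⟩ := hC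
    rw [mem_filter, mem_Free, mem_powersetCard] at hB
    rw [mem_powersetCard]
    refine ⟨sdiff_subset, ?_⟩
    rw [card_sdiff_of_subset (subset_erase.mpr ⟨hB.1.1.1, hB.2⟩), hUj, hB.1.1.2]
    omega
  have hinj : (((Free R a E l').filter (fun A => j ∉ A)).image (fun B => U.erase j \ B)).card
      = ((Free R a E l').filter (fun A => j ∉ A)).card := by
    apply card_image_of_injOn
    intro B hB B' hB' hBB
    simp only [coe_filter, Set.mem_ofPred_eq, mem_Free, mem_powersetCard] at hB hB'
    dsimp only at hBB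
    have e1 : B = U.erase j \ (U.erase j \ B) := by
      rw [sdiff_sdiff_right_self, inf_eq_inter, inter_eq_right.mpr]
      exact subset_erase.mpr ⟨hB.1.1.1, hB.2⟩
    have e2 : B' = U.erase j \ (U.erase j \ B') := by
      rw [sdiff_sdiff_right_self, inf_eq_inter, inter_eq_right.mpr]
      exact subset_erase.mpr ⟨hB'.1.1.1, hB'.2⟩
    rw [e1, e2, hBB]
  have hdis : Disjoint ((Free R a E l).filter (fun A => j ∉ A))
      (((Free R a E l').filter (fun A => j ∉ A)).image (fun B => U.erase j \ B)) := by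
    rw [Finset.disjoint_left]
    intro A hA hA'
    rw [mem_image] at hA'
    obtain ⟨B, hB, rfl⟩ := hA'
    rw [mem_filter] at hA hB
    exact free_notMem_Zset R hn hd hreg a hll hE hA.1 hB.1 sdiff_disjoint hj hA.2 hB.2 hjZ
  rw [← hinj, ← card_union_of_disjoint hdis]
  refine (card_le_card (union_subset h1 h2)).trans ?_
  rw [card_powersetCard, hUj]

end pair

end window

/-- lower bound for the sum of `|S \ A|` over a part of the `d`-sets -/
lemma conc {n d r : ℕ} (hd : 1 ≤ d) (hr : 1 ≤ r) (U S : Finset (Fin n)) (hU : U.card = 2 * d + 1)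
    (hS : S ⊆ U) (hSc : S.card = 2 * r ^ 2) (F : Finset (Finset (Fin n)))
    (hF : F ⊆ powersetCard d U) :
    (F.card : ℝ) * (S.card * (d + 1)) - ((2 * d + 1).choose d : ℝ) * ((2 * d + 1) * r) ≤
      (2 * d + 1) * ∑ A ∈ F, ((S \ A).card : ℝ) := by
  have hsm := second_moment d U S hS (by omega) (by omega)
  rw [hU] at hsm
  push_cast at hsm
  have hr0 : (0 : ℝ) < r := by exact_mod_cast hr
  have hd0 : (1 : ℝ) ≤ d := by exact_mod_cast hd
  set N : ℝ := 2 * d + 1 with hN
  have hN0 : 0 < N := by positivity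
  set z : Finset (Fin n) → ℝ := fun A => N * (S \ A).card - S.card * (N - d) with hz
  have hlam : (0 : ℝ) < N * r := by positivity
  have hpt : ∀ A, -(z A) ≤ z A ^ 2 / (2 * (N * r)) + N * r / 2 := by
    intro A
    rw [div_add_div _ _ (by positivity) (by norm_num), le_div_iff₀ (by positivity)]
    nlinarith [sq_nonneg (z A + N * r)]
  have h1 : ∑ A ∈ F, -(z A) ≤ ∑ A ∈ powersetCard d U, (z A ^ 2 / (2 * (N * r)) + N * r / 2) := by
    refine (sum_le_sum fun A _ => hpt A).trans ?_
    apply sum_le_sum_of_subset_of_nonneg hF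
    intro A _ _
    positivity
  rw [sum_add_distrib, sum_const, card_powersetCard, hU, ← sum_div, nsmul_eq_mul] at h1
  have h2 : (∑ A ∈ powersetCard d U, z A ^ 2) / (2 * (N * r)) ≤
      ((2 * d + 1).choose d : ℝ) * (S.card * d * N) / (2 * (N * r)) := by
    apply div_le_div_of_nonneg_right hsm (by positivity)
  have hSr : (S.card : ℝ) = 2 * r ^ 2 := by rw [hSc]; push_cast; ring
  have h3 : ((2 * d + 1).choose d : ℝ) * (S.card * d * N) / (2 * (N * r)) =
      ((2 * d + 1).choose d : ℝ) * (r * d) := by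
    rw [hSr]
    field_simp
  have hK : (0 : ℝ) ≤ ((2 * d + 1).choose d : ℝ) := Nat.cast_nonneg _
  have h4 : ((2 * d + 1).choose d : ℝ) * (r * d) ≤ ((2 * d + 1).choose d : ℝ) * (N * r / 2) := by
    apply mul_le_mul_of_nonneg_left _ hK
    rw [hN]
    nlinarith
  have h5 : ∑ A ∈ F, -(z A) = (F.card : ℝ) * (S.card * (d + 1)) - N * ∑ A ∈ F, ((S \ A).card : ℝ) := by
    simp only [hz, neg_sub]
    rw [sum_sub_distrib, sum_const, nsmul_eq_mul, mul_sum, hN]
    ring
  rw [h5] at h1
  have h6 : ((2 * d + 1).choose d : ℝ) * (N * r / 2) + ((2 * d + 1).choose d : ℝ) * (N * r / 2)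
      = ((2 * d + 1).choose d : ℝ) * (N * r) := by ring
  linarith

end Pool.Agent.Lib.MP_8fffab_lc_RegRes
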