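import Mathlib
import Pool.Agent.Lib.MP_8fffab_lc_RegRes.Window

/-!
# The window inequality and its average
-/

namespace Pool.Agent.Lib.MP_8fffab_lc_RegRes

open Finset

variable {m n d : ℕ} {W : Type}

lemma choose_rel (d : ℕ) : ((2 * d).choose d : ℝ) * (2 * d + 1) =
    ((2 * d + 1).choose d : ℝ) * (d + 1) := by
  have h := Nat.choose_mul_succ_eq (2 * d) d
  have e : 2 * d + 1 - d = d + 1 := by omega
  rw [e] at h
  exact_mod_cast h

lemma sum_filter_swap (S : Finset (Fin n)) (F : Finset (Finset (Fin n))) :
    ∑ j ∈ S, (F.filter (fun A => j ∉ A)).card = ∑ A ∈ F, (S \ A).card := by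
  have h1 : ∀ j ∈ S, (F.filter (fun A => j ∉ A)).card = ∑ A ∈ F, if j ∉ A then 1 else 0 := by
    intro j _
    rw [card_filter]
  have h2 : ∀ A ∈ F, (S \ A).card = ∑ j ∈ S, if j ∉ A then 1 else 0 := by
    intro A _
    rw [← card_filter]
    congr 1
    ext x
    simp
  rw [sum_congr rfl h1, sum_congr rfl h2, sum_comm]

section window

variable (R : Refutation (setCoverCNF (allSets n d) m) W)

lemma window_ineq (hn : n = m * d + 1) (hd : 1 ≤ d) (hreg : R.Regular) (a : ℕ) {l l' : Fin m}
    (hll : l ≠ l') {E : Fin m → Finset (Fin n)}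
    (hE : E ∈ Ext d (fun _ => ∅) ({l, l'}ᶜ : Finset (Fin m))) {r : ℕ} (hr : 1 ≤ r) {θ : ℝ}
    (h1 : 2 / (r : ℝ) ≤ θ) (h2 : 1 / (2 * (d : ℝ) + 1) ≤ θ)
    (hbad : ¬ (R.rule (stopLine R a E) ≠ none ∧
      (Zset R (stopLine R a E) ∩ (univ \ used E)).card < 2 * r ^ 2)) :
    ((Free R a E l).card : ℝ) + (Free R a E l').card ≤
      (1 + θ) * ((2 * d + 1).choose d : ℝ) := by
  have hK : (0 : ℝ) < ((2 * d + 1).choose d : ℝ) := by
    have : 0 < (2 * d + 1).choose d := Nat.choose_pos (by omega)
    exact_mod_cast this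
  have hrel := choose_rel d
  have hd0 : (1 : ℝ) ≤ d := by exact_mod_cast hd
  have hr0 : (0 : ℝ) < r := by exact_mod_cast hr
  rw [not_and_or, not_not, not_lt] at hbad
  rcases hbad with hleaf | hbig
  · have c1 := card_Free_leaf R hn a hll hE hleaf l
    have c2 := card_Free_leaf R hn a hll hE hleaf l'
    have c1' : ((Free R a E l).card : ℝ) ≤ ((2 * d).choose d : ℝ) := by exact_mod_cast c1
    have c2' : ((Free R a E l').card : ℝ) ≤ ((2 * d).choose d : ℝ) := by exact_mod_cast c2
    have h3 : 2 * ((2 * d).choose d : ℝ) = (1 + 1 / (2 * (d : ℝ) + 1)) *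
        ((2 * d + 1).choose d : ℝ) := by
      have h4 : ((2 * d).choose d : ℝ) = ((2 * d + 1).choose d : ℝ) * (d + 1) / (2 * d + 1) := by
        rw [← hrel]; field_simp
      rw [h4]
      field_simp
      ring
    have h5 : (1 + 1 / (2 * (d : ℝ) + 1)) * ((2 * d + 1).choose d : ℝ) ≤
        (1 + θ) * ((2 * d + 1).choose d : ℝ) := by
      apply mul_le_mul_of_nonneg_right _ hK.le
      linarith
    linarith
  · obtain ⟨S, hSsub, hSc⟩ := exists_subset_card_eq hbig
    have hSU : S ⊆ univ \ used E := hSsub.trans inter_subset_right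
    have hU := card_U hn hll hE
    have hpair : ∀ j ∈ S, ((Free R a E l).filter (fun A => j ∉ A)).card +
        ((Free R a E l').filter (fun A => j ∉ A)).card ≤ (2 * d).choose d := by
      intro j hj
      exact card_Free_pair R hn hd hreg a hll hE (hSU hj) (mem_inter.mp (hSsub hj)).1
    have hsum := sum_le_sum hpair
    rw [sum_add_distrib, sum_filter_swap, sum_filter_swap, sum_const, smul_eq_mul] at hsum
    have hsum' : (∑ A ∈ Free R a E l, ((S \ A).card : ℝ)) +
        ∑ A ∈ Free R a E l', ((S \ A).card : ℝ) ≤ S.card * ((2 * d).choose d : ℝ) := by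
      exact_mod_cast hsum
    have hF : Free R a E l ⊆ powersetCard d (univ \ used E) := by
      intro A hA
      rw [mem_Free] at hA
      exact hA.1
    have hF' : Free R a E l' ⊆ powersetCard d (univ \ used E) := by
      intro A hA
      rw [mem_Free] at hA
      exact hA.1
    have k1 := conc hd hr (univ \ used E) S hU hSU hSc _ hF
    have k2 := conc hd hr (univ \ used E) S hU hSU hSc _ hF'
    have hSr : (S.card : ℝ) = 2 * r ^ 2 := by rw [hSc]; push_cast; ring
    have k3 : (2 * (d : ℝ) + 1) * ((∑ A ∈ Free R a E l, ((S \ A).card : ℝ)) +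
        ∑ A ∈ Free R a E l', ((S \ A).card : ℝ)) ≤
        S.card * (((2 * d + 1).choose d : ℝ) * (d + 1)) := by
      calc _ ≤ (2 * (d : ℝ) + 1) * (S.card * ((2 * d).choose d : ℝ)) :=
            mul_le_mul_of_nonneg_left hsum' (by positivity)
        _ = S.card * (((2 * d).choose d : ℝ) * (2 * d + 1)) := by ring
        _ = _ := by rw [hrel]
    -- combine
    have k4 : (((Free R a E l).card : ℝ) + (Free R a E l').card) * (S.card * (d + 1)) ≤
        ((2 * d + 1).choose d : ℝ) * (S.card * (d + 1) + 2 * ((2 * d + 1) * r)) := by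
      linarith
    have hSd : (0 : ℝ) < S.card * (d + 1) := by rw [hSr]; positivity
    have k5 : (S.card : ℝ) * (d + 1) + 2 * ((2 * d + 1) * r) ≤ (1 + θ) * (S.card * (d + 1)) := by
      have h3 : 2 ≤ θ * r := by
        rw [div_le_iff₀ hr0] at h1
        exact h1
      have h4 : 2 * ((2 * (d : ℝ) + 1) * r) ≤ θ * (S.card * (d + 1)) := by
        rw [hSr]
        have h5 : 2 * (2 * (d : ℝ) + 1) ≤ 2 * (θ * r) * (d + 1) := by
          nlinarith
        calc 2 * ((2 * (d : ℝ) + 1) * r) = (2 * (2 * (d : ℝ) + 1)) * r := by ring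
          _ ≤ (2 * (θ * r) * (d + 1)) * r := mul_le_mul_of_nonneg_right h5 hr0.le
          _ = _ := by ring
      linarith
    have k6 : (((Free R a E l).card : ℝ) + (Free R a E l').card) * (S.card * (d + 1)) ≤
        ((1 + θ) * ((2 * d + 1).choose d : ℝ)) * (S.card * (d + 1)) := by
      refine k4.trans ?_
      calc ((2 * d + 1).choose d : ℝ) * (S.card * (d + 1) + 2 * ((2 * d + 1) * r))
          ≤ ((2 * d + 1).choose d : ℝ) * ((1 + θ) * (S.card * (d + 1))) :=
            mul_le_mul_of_nonneg_left k5 hK.le
        _ = _ := by ring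
    exact le_of_mul_le_mul_right k6 hSd

/-- sums over pairs of disjoint sets -/
lemma sum_Om_pair {M : Type*} [AddCommMonoid M] {l l' : Fin m} (hll : l ≠ l')
    (g : (Fin m → Finset (Fin n)) → M) :
    ∑ D ∈ Om m n d, g D = ∑ E ∈ Ext d (fun _ => ∅) ({l, l'}ᶜ : Finset (Fin m)),
      ∑ A ∈ powersetCard d (univ \ used E),
        ∑ B ∈ powersetCard d ((univ \ used E) \ A),
          g (Function.update (Function.update E l A) l' B) := by
  rw [Om, ← compl_pair hll, sum_Ext_insert d _ _ l' (by simp [hll.symm]) rfl,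
    sum_Ext_insert d _ _ l (by simp) rfl]
  refine sum_congr rfl fun E hE => sum_congr rfl fun A _ => ?_
  have hEl : E l = ∅ := (mem_Ext.mp hE).1 l (by simp)
  rw [used_update hEl, sdiff_union_distrib]
  have : (univ \ used E) ∩ (univ \ A) = (univ \ used E) \ A := by
    ext x
    simp
  rw [this]

lemma sum_disj_swap {U : Finset (Fin n)} (g : Finset (Fin n) → ℝ) :
    ∑ A ∈ powersetCard d U, ∑ B ∈ powersetCard d (U \ A), g B =
      ∑ B ∈ powersetCard d U, ∑ _A ∈ powersetCard d (U \ B), g B := by
  apply sum_comm'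
  intro A B
  simp only [mem_powersetCard, subset_sdiff]
  constructor
  · rintro ⟨⟨h1, h2⟩, ⟨h3, h4⟩, h5⟩
    exact ⟨⟨⟨h1, h4.symm⟩, h2⟩, h3, h5⟩
  · rintro ⟨⟨⟨h1, h4⟩, h2⟩, h3, h5⟩
    exact ⟨⟨h1, h2⟩, ⟨h3, h4.symm⟩, h5⟩

open Classical in
/-- The slot `l` is good for `D`: unplaced at the stopping time, which is no leaf, and its set
has few elements in `Zset`. -/
def Good (a r : ℕ) (l : Fin m) (D : Fin m → Finset (Fin n)) : Prop :=
  l ∉ stopPlaced R a D ∧ R.rule (stopLine R a D) ≠ none ∧
    (Zset R (stopLine R a D) ∩ D l).card < 2 * r ^ 2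

open Classical in
lemma pair_sum (hn : n = m * d + 1) (hd : 1 ≤ d) (hreg : R.Regular) (a : ℕ) {l l' : Fin m}
    (hll : l ≠ l') {r : ℕ} (hr : 1 ≤ r) {θ : ℝ}
    (h1 : 2 / (r : ℝ) ≤ θ) (h2 : 1 / (2 * (d : ℝ) + 1) ≤ θ) :
    ∑ D ∈ Om m n d, ((if l ∉ stopPlaced R a (Function.update D l' ∅) then (1 : ℝ) else 0) +
      (if l' ∉ stopPlaced R a (Function.update D l ∅) then (1 : ℝ) else 0) - (1 + θ)) ≤
    ∑ D ∈ Om m n d, (if Good R a r l D then (1 : ℝ) else 0) := by
  rw [sum_Om_pair hll, sum_Om_pair hll]
  apply sum_le_sum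
  intro E hE
  have hEl : E l = ∅ := (mem_Ext.mp hE).1 l (by simp)
  have hEl' : E l' = ∅ := (mem_Ext.mp hE).1 l' (by simp)
  have hUc := card_U hn hll hE
  set U := univ \ used E with hU
  have hθ : 0 ≤ θ := le_trans (by positivity) h2
  -- rewriting the left side
  have hL : ∀ A ∈ powersetCard d U, ∀ B ∈ powersetCard d (U \ A),
      ((if l ∉ stopPlaced R a (Function.update
          (Function.update (Function.update E l A) l' B) l' ∅) then (1 : ℝ) else 0) +
        (if l' ∉ stopPlaced R a (Function.update
          (Function.update (Function.update E l A) l' B) l ∅) then (1 : ℝ) else 0) - (1 + θ)) =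
      (if A ∈ Free R a E l then (1 : ℝ) else 0) +
        (if B ∈ Free R a E l' then (1 : ℝ) else 0) - (1 + θ) := by
    intro A hA B hB
    have hB' : B ∈ powersetCard d U := by
      rw [mem_powersetCard] at hB ⊢
      exact ⟨hB.1.trans sdiff_subset, hB.2⟩
    have e1 : Function.update (Function.update (Function.update E l A) l' B) l' ∅
        = Function.update E l A := by
      rw [Function.update_idem, Function.update_eq_self_iff, Function.update_of_ne hll.symm]
      exact hEl'.symm
    have e2 : Function.update (Function.update (Function.update E l A) l' B) l ∅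
        = Function.update E l' B := by
      rw [Function.update_comm hll, Function.update_idem, Function.update_eq_self_iff,
        Function.update_of_ne hll]
      exact hEl.symm
    rw [e1, e2]
    have f1 : l ∉ stopPlaced R a (Function.update E l A) ↔ A ∈ Free R a E l := by
      rw [notMem_stopPlaced_iff R hd a hEl A (mem_powersetCard.mp hA).2, mem_Free]
      exact ⟨fun h => ⟨hA, h⟩, fun h => h.2⟩
    have f2 : l' ∉ stopPlaced R a (Function.update E l' B) ↔ B ∈ Free R a E l' := by
      rw [notMem_stopPlaced_iff R hd a hEl' B (mem_powersetCard.mp hB).2, mem_Free]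
      exact ⟨fun h => ⟨hB', h⟩, fun h => h.2⟩
    simp only [f1, f2]
  rw [sum_congr rfl fun A hA => sum_congr rfl fun B hB => hL A hA B hB]
  by_cases hbad : R.rule (stopLine R a E) ≠ none ∧
      (Zset R (stopLine R a E) ∩ U).card < 2 * r ^ 2
  · -- pointwise inequality
    apply sum_le_sum
    intro A hA
    apply sum_le_sum
    intro B hB
    by_cases hAF : A ∈ Free R a E l
    · by_cases hBF : B ∈ Free R a E l'
      · have hAF' := hAF
        have hBF' := hBF
        rw [mem_Free] at hAF' hBF'
        obtain ⟨p1, p2, p3⟩ := both_free R hd a hll hE hAF'.2 hBF'.2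
        have hline : stopLine R a (Function.update (Function.update E l A) l' B)
            = stopLine R a E := by
          unfold stopLine
          rw [p2, p1 _ le_rfl]
        have hgood : Good R a r l (Function.update (Function.update E l A) l' B) := by
          refine ⟨?_, ?_, ?_⟩
          · unfold stopPlaced
            rw [p2, p3 _ le_rfl, mem_placed, hEl]
            rintro ⟨_, _, hc, _⟩
            rw [card_empty] at hc
            omega
          · rw [hline]; exact hbad.1
          · rw [hline]
            refine lt_of_le_of_lt (card_le_card ?_) hbad.2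
            apply inter_subset_inter_left
            rw [Function.update_of_ne hll, Function.update_self]
            exact (mem_powersetCard.mp hA).1
        rw [if_pos hAF, if_pos hBF, if_pos hgood]
        linarith
      · rw [if_pos hAF, if_neg hBF]
        split_ifs <;> linarith
    · rw [if_neg hAF]
      split_ifs <;> linarith
  · have hw := window_ineq R hn hd hreg a hll hE hr h1 h2 hbad
    have hR : (0 : ℝ) ≤ ∑ A ∈ powersetCard d U, ∑ B ∈ powersetCard d (U \ A),
        (if Good R a r l (Function.update (Function.update E l A) l' B)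
          then (1 : ℝ) else 0) := by
      apply sum_nonneg
      intro A _
      apply sum_nonneg
      intro B _
      split_ifs <;> norm_num
    refine le_trans ?_ hR
    have hcardB : ∀ A ∈ powersetCard d U, (powersetCard d (U \ A)).card = d + 1 := by
      intro A hA
      rw [mem_powersetCard] at hA
      rw [card_powersetCard, card_sdiff_of_subset hA.1, hUc, hA.2]
      have : 2 * d + 1 - d = d + 1 := by omega
      rw [this, Nat.choose_succ_self_right]
    have s1 : ∑ A ∈ powersetCard d U, ∑ B ∈ powersetCard d (U \ A),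
        (if A ∈ Free R a E l then (1 : ℝ) else 0) = (d + 1) * (Free R a E l).card := by
      have : ∀ A ∈ powersetCard d U, ∑ B ∈ powersetCard d (U \ A),
          (if A ∈ Free R a E l then (1 : ℝ) else 0)
          = (d + 1) * (if A ∈ Free R a E l then (1 : ℝ) else 0) := by
        intro A hA
        rw [sum_const, hcardB A hA, nsmul_eq_mul]
        push_cast
        ring
      rw [sum_congr rfl this, ← mul_sum, ← sum_filter, sum_const, nsmul_eq_mul, mul_one]
      congr 3
      ext A
      rw [mem_filter, mem_Free]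
      tauto
    have s2 : ∑ A ∈ powersetCard d U, ∑ B ∈ powersetCard d (U \ A),
        (if B ∈ Free R a E l' then (1 : ℝ) else 0) = (d + 1) * (Free R a E l').card := by
      rw [sum_disj_swap (fun B => if B ∈ Free R a E l' then (1 : ℝ) else 0)]
      have : ∀ A ∈ powersetCard d U, ∑ B ∈ powersetCard d (U \ A),
          (if A ∈ Free R a E l' then (1 : ℝ) else 0)
          = (d + 1) * (if A ∈ Free R a E l' then (1 : ℝ) else 0) := by
        intro A hA
        rw [sum_const, hcardB A hA, nsmul_eq_mul]
        push_cast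
        ring
      rw [sum_congr rfl this, ← mul_sum, ← sum_filter, sum_const, nsmul_eq_mul, mul_one]
      congr 3
      ext A
      rw [mem_filter, mem_Free]
      tauto
    have s3 : ∑ A ∈ powersetCard d U, ∑ B ∈ powersetCard d (U \ A), (1 + θ) =
        (d + 1) * ((1 + θ) * ((2 * d + 1).choose d : ℝ)) := by
      have : ∀ A ∈ powersetCard d U, ∑ B ∈ powersetCard d (U \ A), (1 + θ)
          = (d + 1) * (1 + θ) := by
        intro A hA
        rw [sum_const, hcardB A hA, nsmul_eq_mul]
        push_cast
        ring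
      rw [sum_congr rfl this, sum_const, card_powersetCard, hUc, nsmul_eq_mul]
      ring
    generalize 1 + θ = c at hw s3 ⊢
    simp_rw [sum_sub_distrib, sum_add_distrib]
    rw [s1, s2, s3]
    have hdp : (0 : ℝ) ≤ (d : ℝ) + 1 := by positivity
    nlinarith [mul_le_mul_of_nonneg_left hw hdp]

end window

end Pool.Agent.Lib.MP_8fffab_lc_RegRes
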