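import Mathlib
import Pool.Agent.Lib.MP_8fffab_lc_RegRes.Window2

/-!
# The lower bound, with explicit parameters
-/

namespace Pool.Agent.Lib.MP_8fffab_lc_RegRes

open Finset

variable {m n d : ℕ} {W : Type}

section lower

variable (R : Refutation (setCoverCNF (allSets n d) m) W)

open Classical in
/-- the number of good slots -/
noncomputable def goodNum (a r : ℕ) (D : Fin m → Finset (Fin n)) : ℝ :=
  ∑ l : Fin m, if Good R a r l D then (1 : ℝ) else 0

open Classical in
lemma notMem_sum_ge (P : Finset (Fin m)) {a : ℕ} (hP : P.card ≤ a) (l' : Fin m) :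
    (m : ℝ) - 1 - a ≤ ∑ l ∈ univ.erase l', if l ∉ P then (1 : ℝ) else 0 := by
  have h1 : ∑ l ∈ univ.erase l', (if l ∈ P then (1 : ℝ) else 0) ≤ a := by
    calc ∑ l ∈ univ.erase l', (if l ∈ P then (1 : ℝ) else 0)
        ≤ ∑ l, (if l ∈ P then (1 : ℝ) else 0) := by
          apply sum_le_sum_of_subset_of_nonneg (subset_univ _)
          intro _ _ _
          split_ifs <;> norm_num
      _ = P.card := by simp
      _ ≤ a := by exact_mod_cast hP
  have h2 : ∑ l ∈ univ.erase l', (if l ∉ P then (1 : ℝ) else 0) +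
      ∑ l ∈ univ.erase l', (if l ∈ P then (1 : ℝ) else 0) = (m : ℝ) - 1 := by
    rw [← sum_add_distrib]
    have : ∀ l ∈ univ.erase l', ((if l ∉ P then (1 : ℝ) else 0) + if l ∈ P then (1 : ℝ) else 0)
        = 1 := by
      intro l _
      split_ifs <;> simp
    rw [sum_congr rfl this, sum_const, card_erase_of_mem (mem_univ _), card_univ,
      Fintype.card_fin, nsmul_eq_mul, mul_one]
    have : 1 ≤ m := by
      have := l'.2
      omega
    rw [Nat.cast_sub this]
    simp
  linarith

lemma avg_good (hn : n = m * d + 1) (hd : 1 ≤ d) (hreg : R.Regular) (a : ℕ)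
    {r : ℕ} (hr : 1 ≤ r) {θ : ℝ} (h1 : 2 / (r : ℝ) ≤ θ) (h2 : 1 / (2 * (d : ℝ) + 1) ≤ θ) :
    ((Om m n d).card : ℝ) * (m * (2 * ((m : ℝ) - 1 - a) - (1 + θ) * (m - 1))) ≤
      ((m : ℝ) - 1) * ∑ D ∈ Om m n d, goodNum R a r D := by
  classical
  rcases Nat.eq_zero_or_pos m with hm | hm
  · subst hm
    simp [goodNum]
  have hm1 : ∀ l' : Fin m, ((univ.erase l').card : ℝ) = (m : ℝ) - 1 := by
    intro l'
    rw [card_erase_of_mem (mem_univ _), card_univ, Fintype.card_fin, Nat.cast_sub hm]
    simp
  have key : ∑ l' : Fin m, ∑ l ∈ univ.erase l', ∑ D ∈ Om m n d,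
      ((if l ∉ stopPlaced R a (Function.update D l' ∅) then (1 : ℝ) else 0) +
      (if l' ∉ stopPlaced R a (Function.update D l ∅) then (1 : ℝ) else 0) - (1 + θ)) ≤
      ∑ l' : Fin m, ∑ l ∈ univ.erase l',
        ∑ D ∈ Om m n d, (if Good R a r l D then (1 : ℝ) else 0) := by
    apply sum_le_sum
    intro l' _
    apply sum_le_sum
    intro l hl
    exact pair_sum R hn hd hreg a (ne_of_mem_erase hl) hr h1 h2
  -- right side
  have hswap : ∀ f : Fin m → Fin m → ℝ, ∑ l' : Fin m, ∑ l ∈ univ.erase l', f l' l =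
      ∑ l : Fin m, ∑ l' ∈ univ.erase l, f l' l := by
    intro f
    apply sum_comm'
    intro x y
    simp only [mem_univ, mem_erase, true_and, and_true]
    exact ⟨fun h => h.symm, fun h => h.symm⟩
  have hR : ∑ l' : Fin m, ∑ l ∈ univ.erase l',
        ∑ D ∈ Om m n d, (if Good R a r l D then (1 : ℝ) else 0) =
      ((m : ℝ) - 1) * ∑ D ∈ Om m n d, goodNum R a r D := by
    rw [hswap]
    have : ∀ l ∈ (univ : Finset (Fin m)), ∑ l' ∈ univ.erase l,
        ∑ D ∈ Om m n d, (if Good R a r l D then (1 : ℝ) else 0)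
        = ((m : ℝ) - 1) * ∑ D ∈ Om m n d, (if Good R a r l D then (1 : ℝ) else 0) := by
      intro l _
      rw [sum_const, nsmul_eq_mul, hm1]
    rw [sum_congr rfl this, ← mul_sum, sum_comm]
    rfl
  rw [hR] at key
  refine le_trans ?_ key
  -- left side
  have e1 : ∑ l' : Fin m, ∑ l ∈ univ.erase l', ∑ D ∈ Om m n d,
      ((if l ∉ stopPlaced R a (Function.update D l' ∅) then (1 : ℝ) else 0) +
      (if l' ∉ stopPlaced R a (Function.update D l ∅) then (1 : ℝ) else 0) - (1 + θ)) =
      ∑ D ∈ Om m n d, (2 * (∑ l' : Fin m, ∑ l ∈ univ.erase l',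
        (if l ∉ stopPlaced R a (Function.update D l' ∅) then (1 : ℝ) else 0)) -
        (m : ℝ) * (m - 1) * (1 + θ)) := by
    have e2 : ∀ D : Fin m → Finset (Fin n), (2 * (∑ l' : Fin m, ∑ l ∈ univ.erase l',
        (if l ∉ stopPlaced R a (Function.update D l' ∅) then (1 : ℝ) else 0)) -
        (m : ℝ) * (m - 1) * (1 + θ)) =
        ∑ l' : Fin m, ∑ l ∈ univ.erase l',
        ((if l ∉ stopPlaced R a (Function.update D l' ∅) then (1 : ℝ) else 0) +
        (if l' ∉ stopPlaced R a (Function.update D l ∅) then (1 : ℝ) else 0) - (1 + θ)) := by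
      intro D
      have e3 : ∑ l' : Fin m, ∑ l ∈ univ.erase l',
          (if l' ∉ stopPlaced R a (Function.update D l ∅) then (1 : ℝ) else 0) =
          ∑ l' : Fin m, ∑ l ∈ univ.erase l',
          (if l ∉ stopPlaced R a (Function.update D l' ∅) then (1 : ℝ) else 0) := by
        rw [hswap]
      have e4 : ∑ l' : Fin m, ∑ l ∈ univ.erase l', (1 + θ) = (m : ℝ) * (m - 1) * (1 + θ) := by
        have : ∀ l' ∈ (univ : Finset (Fin m)), ∑ l ∈ univ.erase l', (1 + θ)
            = ((m : ℝ) - 1) * (1 + θ) := by
          intro l' _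
          rw [sum_const, nsmul_eq_mul, hm1]
        rw [sum_congr rfl this, sum_const, card_univ, Fintype.card_fin, nsmul_eq_mul]
        ring
      rw [← e4]
      generalize 1 + θ = c
      simp_rw [sum_sub_distrib, sum_add_distrib]
      rw [e3]
      ring
    rw [sum_congr rfl fun D _ => e2 D]
    have e5 : ∀ l' ∈ (univ : Finset (Fin m)), ∑ l ∈ univ.erase l', ∑ D ∈ Om m n d,
        ((if l ∉ stopPlaced R a (Function.update D l' ∅) then (1 : ℝ) else 0) +
        (if l' ∉ stopPlaced R a (Function.update D l ∅) then (1 : ℝ) else 0) - (1 + θ)) =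
        ∑ D ∈ Om m n d, ∑ l ∈ univ.erase l',
        ((if l ∉ stopPlaced R a (Function.update D l' ∅) then (1 : ℝ) else 0) +
        (if l' ∉ stopPlaced R a (Function.update D l ∅) then (1 : ℝ) else 0) - (1 + θ)) :=
      fun l' _ => sum_comm
    rw [sum_congr rfl e5, sum_comm]
  rw [e1, ← nsmul_eq_mul]
  apply card_nsmul_le_sum
  intro D _
  have e6 : (m : ℝ) * ((m : ℝ) - 1 - a) ≤ ∑ l' : Fin m, ∑ l ∈ univ.erase l',
        (if l ∉ stopPlaced R a (Function.update D l' ∅) then (1 : ℝ) else 0) := by
    have := card_nsmul_le_sum (univ : Finset (Fin m)) (fun l' => ∑ l ∈ univ.erase l',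
        (if l ∉ stopPlaced R a (Function.update D l' ∅) then (1 : ℝ) else 0))
        ((m : ℝ) - 1 - a) (fun l' _ => notMem_sum_ge _ (card_stopPlaced_le R a _) l')
    rw [card_univ, Fintype.card_fin, nsmul_eq_mul] at this
    exact this
  nlinarith

lemma goodNum_le (a r : ℕ) (D : Fin m → Finset (Fin n)) : goodNum R a r D ≤ m := by
  classical
  unfold goodNum
  calc _ ≤ ∑ l : Fin m, (1 : ℝ) := by
        apply sum_le_sum
        intro _ _
        split_ifs <;> norm_num
    _ = m := by simp

lemma goodNum_nonneg (a r : ℕ) (D : Fin m → Finset (Fin n)) : 0 ≤ goodNum R a r D := by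
  classical
  unfold goodNum
  apply sum_nonneg
  intro _ _
  split_ifs <;> norm_num

open Classical in
/-- many critical assignments have many good slots -/
lemma many_good (hn : n = m * d + 1) (hd : 1 ≤ d) (hm : 2 ≤ m) (hreg : R.Regular) (a : ℕ)
    {r : ℕ} (hr : 1 ≤ r) {θ : ℝ} (h1 : 2 / (r : ℝ) ≤ θ) (h2 : 1 / (2 * (d : ℝ) + 1) ≤ θ)
    (ha : (a : ℝ) ≤ (1 / 2 - θ) * (m - 1)) :
    θ / 2 * ((Om m n d).card : ℝ) ≤
      (((Om m n d).filter fun D => θ / 2 * m ≤ goodNum R a r D).card : ℝ) := by
  have hθ : 0 < θ := lt_of_lt_of_le (by positivity) h2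
  have hm' : (2 : ℝ) ≤ m := by exact_mod_cast hm
  have havg := avg_good R hn hd hreg a hr h1 h2
  set O : ℝ := ((Om m n d).card : ℝ) with hO
  have hO0 : 0 ≤ O := Nat.cast_nonneg _
  have h3 : O * (m * θ) ≤ ∑ D ∈ Om m n d, goodNum R a r D := by
    have h4 : θ * ((m : ℝ) - 1) ≤ 2 * ((m : ℝ) - 1 - a) - (1 + θ) * (m - 1) := by nlinarith
    have h5 : O * (m * (θ * ((m : ℝ) - 1))) ≤ ((m : ℝ) - 1) * ∑ D ∈ Om m n d, goodNum R a r D := by
      refine le_trans ?_ havg
      apply mul_le_mul_of_nonneg_left _ hO0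
      exact mul_le_mul_of_nonneg_left h4 (by linarith)
    have h6 : ((m : ℝ) - 1) * (O * (m * θ)) ≤
        ((m : ℝ) - 1) * ∑ D ∈ Om m n d, goodNum R a r D := by
      refine le_trans (le_of_eq ?_) h5
      ring
    exact le_of_mul_le_mul_left h6 (by linarith)
  have h7 : ∑ D ∈ Om m n d, goodNum R a r D ≤
      (((Om m n d).filter fun D => θ / 2 * m ≤ goodNum R a r D).card : ℝ) * m +
        O * (θ / 2 * m) := by
    rw [← sum_filter_add_sum_filter_not (Om m n d) (fun D => θ / 2 * m ≤ goodNum R a r D)]
    apply add_le_add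
    · rw [← nsmul_eq_mul]
      exact sum_le_card_nsmul _ _ _ fun D _ => goodNum_le R a r D
    · have h8 := sum_le_card_nsmul
        ((Om m n d).filter (fun D => ¬ θ / 2 * m ≤ goodNum R a r D))
        (fun D => goodNum R a r D) (θ / 2 * m)
        (fun D hD => (not_le.mp (mem_filter.mp hD).2).le)
      refine h8.trans ?_
      rw [nsmul_eq_mul]
      apply mul_le_mul_of_nonneg_right _ (by positivity)
      rw [hO]
      exact Nat.cast_le.mpr (card_le_card (filter_subset _ _))
  have h9 : (m : ℝ) * (θ / 2 * O) ≤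
      m * (((Om m n d).filter fun D => θ / 2 * m ≤ goodNum R a r D).card : ℝ) := by
    nlinarith
  exact le_of_mul_le_mul_left h9 (by linarith)

/-- the run of the prefix -/
lemma restr_agree (hd : 1 ≤ d) (a : ℕ) (D : Fin m → Finset (Fin n)) :
    stopLine R a (restr D (stopPlaced R a D)) = stopLine R a D := by
  obtain ⟨h1, h2, _⟩ := agree R a (D := D) (D' := restr D (stopPlaced R a D)) (by
    rintro s hs ⟨l₁, A₁, hA₁⟩ p q hr
    dsimp only
    unfold restr
    split_ifs with h
    · rfl
    · constructor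
      · intro h1
        exfalso
        apply h
        unfold stopPlaced
        rw [mem_placed]
        subst h1
        exact ⟨s, hs, hA₁, p, q, hr⟩
      · intro h1
        exfalso
        rw [← h1, card_empty] at hA₁
        omega)
  unfold stopLine
  rw [h2, h1 _ le_rfl]

lemma card_Om {a : ℕ} (ha : a ≤ m) :
    (Om m n d).card = cnt d a n * cnt d (m - a) (n - a * d) := by
  unfold Om
  rw [card_Ext d _ _ (fun _ _ => rfl) (fun _ _ _ => disjoint_empty_left _), card_univ,
    Fintype.card_fin, used_empty, card_empty, Nat.sub_zero, ← cnt_add]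
  congr 1
  omega

open Classical in
/-- few critical assignments have many good slots and a large `Zset` -/
lemma few_large (hn : n = m * d + 1) (hd : 1 ≤ d) (a r t : ℕ) (hat : a + t ≤ m)
    {δ : ℝ} (hδ : 0 < δ) (hδd : 2 * ((2 * r ^ 2 : ℕ) : ℝ) ≤ δ * d) (κ : ℝ)
    (ht : (t : ℝ) ≤ κ * m) :
    (((Om m n d).filter fun D => κ * m ≤ goodNum R a r D ∧
      R.rule (stopLine R a D) ≠ none ∧
      (a : ℝ) * d + δ * n ≤ (Zset R (stopLine R a D)).card).card : ℝ) ≤
      4 ^ m * (4 / (δ ^ 2 * d)) ^ t * ((Om m n d).card : ℝ) := by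
  -- pairs of sets of slots
  set PS : Finset (Finset (Fin m) × Finset (Fin m)) :=
    univ.filter (fun p => p.1.card = a ∧ p.2.card = t ∧ Disjoint p.1 p.2) with hPS
  have hPSc : (PS.card : ℝ) ≤ 4 ^ m := by
    have h1 : PS.card ≤ (univ : Finset (Finset (Fin m) × Finset (Fin m))).card :=
      card_le_card (filter_subset _ _)
    rw [card_univ, Fintype.card_prod, Fintype.card_finset, Fintype.card_fin] at h1
    have h2 : (2 : ℕ) ^ m * 2 ^ m = 4 ^ m := by
      rw [← mul_pow]
      norm_num
    rw [h2] at h1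
    exact_mod_cast h1
  -- the weight
  set wt : Finset (Fin m) → Finset (Fin m) → (Fin m → Finset (Fin n)) → ℝ := fun Q T D =>
    if (a : ℝ) * d + δ * n ≤ (Zset R (stopLine R a (restr D Q))).card ∧
      ∀ l ∈ T, (Zset R (stopLine R a (restr D Q)) ∩ D l).card < 2 * r ^ 2 then (1 : ℝ) else 0
    with hwt
  have hcover : (((Om m n d).filter fun D => κ * m ≤ goodNum R a r D ∧
      R.rule (stopLine R a D) ≠ none ∧
      (a : ℝ) * d + δ * n ≤ (Zset R (stopLine R a D)).card).card : ℝ) ≤
      ∑ D ∈ Om m n d, ∑ p ∈ PS, wt p.1 p.2 D := by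
    rw [card_filter, Nat.cast_sum]
    apply sum_le_sum
    intro D _
    split_ifs with h
    · obtain ⟨hg, hnl, hZ⟩ := h
      set G : Finset (Fin m) := univ.filter (fun l => Good R a r l D) with hG
      have hGc : goodNum R a r D = G.card := by
        unfold goodNum
        rw [hG, card_filter]
        push_cast
        rfl
      have htG : t ≤ G.card := by
        have : (t : ℝ) ≤ G.card := by rw [← hGc]; exact ht.trans hg
        exact_mod_cast this
      obtain ⟨T, hTG, hTc⟩ := exists_subset_card_eq htG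
      have hdisj : Disjoint (stopPlaced R a D) T := by
        rw [Finset.disjoint_right]
        intro l hl
        have := hTG hl
        rw [hG, mem_filter] at this
        exact this.2.1
      have hp : (stopPlaced R a D, T) ∈ PS := by
        rw [hPS, mem_filter]
        exact ⟨mem_univ _, card_stopPlaced_eq R hnl, hTc, hdisj⟩
      have hw1 : wt (stopPlaced R a D) T D = 1 := by
        rw [hwt]
        dsimp only
        rw [if_pos]
        rw [restr_agree R hd a D]
        refine ⟨hZ, fun l hl => ?_⟩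
        have := hTG hl
        rw [hG, mem_filter] at this
        exact this.2.2.2
      have h0 : ∀ p ∈ PS, 0 ≤ wt p.1 p.2 D := by
        intro p _
        rw [hwt]
        dsimp only
        split_ifs <;> norm_num
      have := single_le_sum h0 hp
      dsimp only at this
      rw [hw1] at this
      simpa using this
    · simp only [Nat.cast_zero]
      apply sum_nonneg
      intro p _
      rw [hwt]
      dsimp only
      split_ifs <;> norm_num
  refine hcover.trans ?_
  rw [sum_comm]
  have hp0 : (0 : ℝ) ≤ 4 / (δ ^ 2 * d) := by positivity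
  have hone : ∀ p ∈ PS, ∑ D ∈ Om m n d, wt p.1 p.2 D ≤
      (4 / (δ ^ 2 * d)) ^ t * ((Om m n d).card : ℝ) := by
    rintro ⟨Q, T⟩ hp
    rw [hPS, mem_filter] at hp
    obtain ⟨_, hQ, hT, hQT⟩ := hp
    dsimp only at hQ hT hQT ⊢
    rw [sum_Om_restr d Q, card_eq_sum_ones (Om m n d), sum_Om_restr d Q]
    push_cast
    rw [mul_sum]
    apply sum_le_sum
    intro E hE
    have hEQ : ∀ l, l ∉ Q → E l = ∅ := fun l hl => (mem_Ext.mp hE).1 l hl
    have hrestr : ∀ D ∈ Ext d E Qᶜ, restr D Q = E := by
      intro D hD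
      funext l
      unfold restr
      split_ifs with h
      · exact (mem_Ext.mp hD).1 l (by simpa using h)
      · exact (hEQ l h).symm
    have husedE : (used E).card = a * d := by
      have := card_used (E := fun _ => ∅) (fun _ _ => rfl) hE
      rw [used_empty, card_empty, zero_add, hQ] at this
      exact this
    have hQc : Qᶜ = (Qᶜ \ T) ∪ T := by
      rw [sdiff_union_of_subset]
      intro l hl
      rw [mem_compl]
      exact fun h => (Finset.disjoint_left.mp hQT) h hl
    have hTQ : T ⊆ Qᶜ := by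
      rw [hQc]
      exact subset_union_right
    rw [sum_const, nsmul_eq_mul, mul_one]
    have hcE : (Ext d E Qᶜ).card = cnt d (t + (m - a - t)) (n - a * d) := by
      rw [card_Ext d E Qᶜ (fun l hl => hEQ l (by simpa using hl)) (mem_Ext.mp hE).2.2,
        husedE, card_compl, Fintype.card_fin, hQ]
      congr 1
      omega
    by_cases hZ : (a : ℝ) * d + δ * n ≤ (Zset R (stopLine R a E)).card
    · have h1 : ∑ D ∈ Ext d E Qᶜ, wt Q T D = ∑ D ∈ Ext d E Qᶜ,
          (if ∀ l ∈ T, (Zset R (stopLine R a E) ∩ D l).card < 2 * r ^ 2 then (1 : ℝ) else 0) := by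
        refine sum_congr rfl fun D hD => ?_
        rw [hwt]
        dsimp only
        rw [hrestr D hD]
        simp only [hZ, true_and]
      rw [h1, hcE, hQc, sum_Ext_union d E (Qᶜ \ T) T sdiff_disjoint
        (by
          intro l hl
          rw [← hQc] at hl
          exact hEQ l (by simpa using hl))
        (fun D => if ∀ l ∈ T, (Zset R (stopLine R a E) ∩ D l).card < 2 * r ^ 2
          then (1 : ℝ) else 0)
        (by
          intro D l A hl
          have : ∀ l' ∈ T, Function.update D l A l' = D l' := by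
            intro l' hl'
            rw [Function.update_of_ne]
            rintro rfl
            exact hl hl'
          congr 1
          apply propext
          constructor
          · intro h l' hl'
            rw [← this l' hl']
            exact h l' hl'
          · intro h l' hl'
            rw [this l' hl']
            exact h l' hl')]
      have hlc := light_count (s₀ := 2 * r ^ 2) hd hδ hδd E T
        (fun l hl => hEQ l (by simpa using hTQ hl)) (Zset R (stopLine R a E))
        (by
          rw [husedE, hT, hn]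
          have : a * d + t * d = (a + t) * d := by ring
          rw [this]
          have := Nat.mul_le_mul_right d hat
          omega)
        (by
          rw [husedE]
          have h2 : (Zset R (stopLine R a E)).card ≤
              (Zset R (stopLine R a E) \ used E).card + a * d := by
            rw [← husedE]
            have := card_sdiff_add_card_inter (Zset R (stopLine R a E)) (used E)
            have h3 : (Zset R (stopLine R a E) ∩ used E).card ≤ (used E).card :=
              card_le_card inter_subset_right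
            omega
          have h2' : ((Zset R (stopLine R a E)).card : ℝ) ≤
              (Zset R (stopLine R a E) \ used E).card + a * d := by exact_mod_cast h2
          have h3 : 0 ≤ δ * ((a * d : ℕ) : ℝ) := by positivity
          have h4 : δ * ((n : ℝ) - ((a * d : ℕ) : ℝ)) = δ * n - δ * ((a * d : ℕ) : ℝ) := by ring
          rw [h4]
          linarith)
      rw [husedE, hT] at hlc
      have hc1 : (Qᶜ \ T).card = m - a - t := by
        rw [card_sdiff_of_subset hTQ, card_compl, Fintype.card_fin, hQ, hT]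
      rw [hc1, husedE, hT, cnt_add]
      have hsub : n - (a * d + t * d) = n - a * d - t * d := by rw [Nat.sub_sub]
      rw [hsub]
      push_cast
      calc _ ≤ ((4 / (δ ^ 2 * d)) ^ t * (cnt d t (n - a * d) : ℝ)) *
            (cnt d (m - a - t) (n - a * d - t * d) : ℝ) :=
          mul_le_mul_of_nonneg_right hlc (Nat.cast_nonneg _)
        _ = _ := by ring
    · have h1 : ∑ D ∈ Ext d E Qᶜ, wt Q T D = 0 := by
        apply sum_eq_zero
        intro D hD
        rw [hwt]
        dsimp only
        rw [hrestr D hD, if_neg]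
        exact fun h => hZ h.1
      rw [h1]
      exact mul_nonneg (pow_nonneg hp0 t) (Nat.cast_nonneg _)
  refine (sum_le_card_nsmul _ _ _ hone).trans ?_
  rw [nsmul_eq_mul, mul_assoc]
  apply mul_le_mul_of_nonneg_right hPSc
  positivity

/-- few critical assignments stop at one line with a small `Zset` -/
lemma stop_count (a : ℕ) (Q : Finset (Fin m)) (hQ : Q.card = a)
    (Z : Finset (Fin n)) :
    ∑ D ∈ Om m n d, (if ∀ l ∈ Q, D l ⊆ Z then (1 : ℝ) else 0) ≤
      (cnt d a Z.card : ℝ) * (cnt d (m - a) (n - a * d) : ℝ) := by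
  have hu : (univ : Finset (Fin m)) = Qᶜ ∪ Q := by
    ext l
    simp only [mem_univ, mem_union, mem_compl, true_iff]
    tauto
  unfold Om
  rw [hu, sum_Ext_union d _ Qᶜ Q disjoint_compl_left (fun _ _ => rfl)
    (fun D => if ∀ l ∈ Q, D l ⊆ Z then (1 : ℝ) else 0)
    (by
      intro D l A hl
      have : ∀ l' ∈ Q, Function.update D l A l' = D l' := by
        intro l' hl'
        rw [Function.update_of_ne]
        rintro rfl
        exact hl hl'
      congr 1
      apply propext
      constructor
      · intro h l' hl'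
        rw [← this l' hl']
        exact h l' hl'
      · intro h l' hl'
        rw [this l' hl']
        exact h l' hl')]
  have h := sub_count d Q Z
  rw [hQ] at h
  rw [used_empty, card_empty, zero_add, hQ, card_compl, Fintype.card_fin, hQ]
  exact mul_le_mul_of_nonneg_right h (Nat.cast_nonneg _)

lemma cnt_mono (d q : ℕ) {u u' : ℕ} (h : u ≤ u') : cnt d q u ≤ cnt d q u' := by
  induction q with
  | zero => simp [cnt]
  | succ k ih =>
    rw [cnt, cnt]
    exact Nat.mul_le_mul ih (Nat.choose_le_choose d (Nat.sub_le_sub_right h _))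

lemma cnt_choose (d q u : ℕ) (h : q * d ≤ u) :
    cnt d q u * d.factorial ^ q = u.choose (q * d) * (q * d).factorial := by
  have h1 := cnt_factorial d q u h
  have h2 := Nat.choose_mul_factorial_mul_factorial h
  have h3 : 0 < (u - q * d).factorial := Nat.factorial_pos _
  apply Nat.eq_of_mul_eq_mul_right h3
  rw [h1, h2]

open Classical in
/-- the lower bound with parameters -/
lemma lower [Fintype W] (hn : n = m * d + 1) (hd : 1 ≤ d) (hm : 2 ≤ m) (hreg : R.Regular)
    (a r t z : ℕ) (hr : 1 ≤ r) (hat : a + t ≤ m) {θ δ : ℝ} (h1 : 2 / (r : ℝ) ≤ θ)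
    (h2 : 1 / (2 * (d : ℝ) + 1) ≤ θ) (ha : (a : ℝ) ≤ (1 / 2 - θ) * (m - 1)) (hδ : 0 < δ)
    (hδd : 2 * ((2 * r ^ 2 : ℕ) : ℝ) ≤ δ * d) (ht : (t : ℝ) ≤ θ / 2 * m)
    (hz : (a : ℝ) * d + δ * n ≤ z)
    (hsmall : (4 : ℝ) ^ m * (4 / (δ ^ 2 * d)) ^ t ≤ θ / 8)
    (hleaf : ((Fintype.card W : ℕ) : ℝ) * 2 ^ m * (z.choose (a * d) : ℝ) <
      θ / 4 * (n.choose (a * d) : ℝ)) : False := by
  have hθ : 0 < θ := lt_of_lt_of_le (by positivity) h2
  have ham : a ≤ m := by omega
  have hadz : a * d ≤ z := by
    have : ((a * d : ℕ) : ℝ) ≤ z := by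
      push_cast
      have : 0 ≤ δ * n := by positivity
      linarith
    exact_mod_cast this
  have hadn : a * d ≤ n := by
    have := Nat.mul_le_mul_right d ham
    omega
  set O : ℝ := ((Om m n d).card : ℝ) with hO
  have hO0 : 0 < O := by
    rw [hO, card_Om (n := n) (d := d) ham, Nat.cast_mul]
    have c1 := cnt_pos d a n hadn
    have c2 := cnt_pos d (m - a) (n - a * d) (by
      rw [hn, Nat.sub_mul]
      have := Nat.mul_le_mul_right d ham
      omega)
    have c1' : (0 : ℝ) < cnt d a n := by exact_mod_cast c1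
    have c2' : (0 : ℝ) < cnt d (m - a) (n - a * d) := by exact_mod_cast c2
    positivity
  have hmany := many_good R hn hd hm hreg a hr h1 h2 ha
  have hfew := few_large R hn hd a r t hat hδ hδd (θ / 2) ht
  rw [← hO] at hmany hfew
  -- the remaining assignments
  set G5 : Finset (Fin m → Finset (Fin n)) := (Om m n d).filter fun D =>
    R.rule (stopLine R a D) ≠ none ∧ (Zset R (stopLine R a D)).card ≤ z with hG5
  have hm0 : (0 : ℝ) < θ / 2 * m := by
    have : (2 : ℝ) ≤ m := by exact_mod_cast hm
    positivity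
  have hunion : (Om m n d).filter (fun D => θ / 2 * m ≤ goodNum R a r D) ⊆
      ((Om m n d).filter fun D => θ / 2 * m ≤ goodNum R a r D ∧
        R.rule (stopLine R a D) ≠ none ∧
        (a : ℝ) * d + δ * n ≤ (Zset R (stopLine R a D)).card) ∪ G5 := by
    intro D hD
    rw [mem_filter] at hD
    rw [mem_union, mem_filter, hG5, mem_filter]
    have hnl : R.rule (stopLine R a D) ≠ none := by
      intro hcon
      have : goodNum R a r D = 0 := by
        unfold goodNum
        apply sum_eq_zero
        intro l _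
        rw [if_neg]
        exact fun h => h.2.1 hcon
      rw [this] at hD
      linarith [hD.2]
    by_cases hZ : (a : ℝ) * d + δ * n ≤ (Zset R (stopLine R a D)).card
    · left
      exact ⟨hD.1, hD.2, hnl, hZ⟩
    · right
      refine ⟨hD.1, hnl, ?_⟩
      rw [not_le] at hZ
      have : ((Zset R (stopLine R a D)).card : ℝ) ≤ z := by linarith
      exact_mod_cast this
  have hG5big : θ / 4 * O ≤ (G5.card : ℝ) := by
    have c1 := (card_le_card hunion).trans (card_union_le _ _)
    have c1' : (((Om m n d).filter (fun D => θ / 2 * m ≤ goodNum R a r D)).card : ℝ) ≤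
        (((Om m n d).filter fun D => θ / 2 * m ≤ goodNum R a r D ∧
        R.rule (stopLine R a D) ≠ none ∧
        (a : ℝ) * d + δ * n ≤ (Zset R (stopLine R a D)).card).card : ℝ) + G5.card := by
      exact_mod_cast c1
    have c2 : (4 : ℝ) ^ m * (4 / (δ ^ 2 * d)) ^ t * O ≤ θ / 8 * O :=
      mul_le_mul_of_nonneg_right hsmall hO0.le
    have c3 : 0 < θ * O := by positivity
    linarith
  -- upper bound for G5
  have hG5small : (G5.card : ℝ) ≤ ((Fintype.card W : ℕ) : ℝ) * 2 ^ m *
      ((cnt d a z : ℝ) * (cnt d (m - a) (n - a * d) : ℝ)) := by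
    have hcov : (G5.card : ℝ) ≤ ∑ D ∈ Om m n d,
        ∑ v ∈ (univ : Finset W).filter (fun v => (Zset R v).card ≤ z),
          ∑ Q ∈ (univ : Finset (Finset (Fin m))).filter (fun Q => Q.card = a),
            (if ∀ l ∈ Q, D l ⊆ Zset R v then (1 : ℝ) else 0) := by
      rw [hG5, card_filter, Nat.cast_sum]
      apply sum_le_sum
      intro D hD
      split_ifs with h
      · have hv : stopLine R a D ∈ (univ : Finset W).filter (fun v => (Zset R v).card ≤ z) := by
          rw [mem_filter]
          exact ⟨mem_univ _, h.2⟩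
        have hQ : stopPlaced R a D ∈
            (univ : Finset (Finset (Fin m))).filter (fun Q => Q.card = a) := by
          rw [mem_filter]
          exact ⟨mem_univ _, card_stopPlaced_eq R h.1⟩
        have k1 : ∀ v ∈ (univ : Finset W).filter (fun v => (Zset R v).card ≤ z),
            0 ≤ ∑ Q ∈ (univ : Finset (Finset (Fin m))).filter (fun Q => Q.card = a),
              (if ∀ l ∈ Q, D l ⊆ Zset R v then (1 : ℝ) else 0) := by
          intro v _
          apply sum_nonneg
          intro Q _
          split_ifs <;> norm_num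
        have k2 : ∀ Q ∈ (univ : Finset (Finset (Fin m))).filter (fun Q => Q.card = a),
            0 ≤ (if ∀ l ∈ Q, D l ⊆ Zset R (stopLine R a D) then (1 : ℝ) else 0) := by
          intro Q _
          split_ifs <;> norm_num
        have k3 := single_le_sum k1 hv
        have k4 := single_le_sum k2 hQ
        have k5 : (if ∀ l ∈ stopPlaced R a D, D l ⊆ Zset R (stopLine R a D)
            then (1 : ℝ) else 0) = 1 := by
          rw [if_pos]
          intro l hl
          exact subset_Zset R hD a hl
        rw [k5] at k4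
        simpa using k4.trans k3
      · simp only [Nat.cast_zero]
        apply sum_nonneg
        intro v _
        apply sum_nonneg
        intro Q _
        split_ifs <;> norm_num
    refine hcov.trans ?_
    rw [sum_comm]
    have hv1 : ∀ v ∈ (univ : Finset W).filter (fun v => (Zset R v).card ≤ z),
        ∑ D ∈ Om m n d, ∑ Q ∈ (univ : Finset (Finset (Fin m))).filter (fun Q => Q.card = a),
            (if ∀ l ∈ Q, D l ⊆ Zset R v then (1 : ℝ) else 0) ≤
          2 ^ m * ((cnt d a z : ℝ) * (cnt d (m - a) (n - a * d) : ℝ)) := by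
      intro v hv
      rw [sum_comm]
      have hQ1 : ∀ Q ∈ (univ : Finset (Finset (Fin m))).filter (fun Q => Q.card = a),
          ∑ D ∈ Om m n d, (if ∀ l ∈ Q, D l ⊆ Zset R v then (1 : ℝ) else 0) ≤
          (cnt d a z : ℝ) * (cnt d (m - a) (n - a * d) : ℝ) := by
        intro Q hQ
        refine (stop_count a Q (mem_filter.mp hQ).2 (Zset R v)).trans ?_
        apply mul_le_mul_of_nonneg_right _ (Nat.cast_nonneg _)
        exact_mod_cast cnt_mono d a (mem_filter.mp hv).2
      refine (sum_le_card_nsmul _ _ _ hQ1).trans ?_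
      rw [nsmul_eq_mul]
      apply mul_le_mul_of_nonneg_right _ (by positivity)
      have : ((univ : Finset (Finset (Fin m))).filter (fun Q => Q.card = a)).card ≤ 2 ^ m := by
        refine (card_le_card (filter_subset _ _)).trans ?_
        rw [card_univ, Fintype.card_finset, Fintype.card_fin]
      exact_mod_cast this
    refine (sum_le_card_nsmul _ _ _ hv1).trans ?_
    rw [nsmul_eq_mul, mul_assoc]
    apply mul_le_mul_of_nonneg_right _ (by positivity)
    have : ((univ : Finset W).filter (fun v => (Zset R v).card ≤ z)).card ≤ Fintype.card W :=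
      card_le_univ _
    exact_mod_cast this
  -- compare
  have hOeq : O = (cnt d a n : ℝ) * (cnt d (m - a) (n - a * d) : ℝ) := by
    rw [hO, card_Om (n := n) (d := d) ham, Nat.cast_mul]
  have hc2 : (0 : ℝ) < (cnt d (m - a) (n - a * d) : ℝ) := by
    by_contra hc
    have h0 : (cnt d (m - a) (n - a * d) : ℝ) = 0 :=
      le_antisymm (not_lt.mp hc) (Nat.cast_nonneg _)
    rw [hOeq, h0, mul_zero] at hO0
    exact lt_irrefl _ hO0
  have hfin : θ / 4 * (cnt d a n : ℝ) ≤
      ((Fintype.card W : ℕ) : ℝ) * 2 ^ m * (cnt d a z : ℝ) := by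
    have c := hG5big.trans hG5small
    rw [hOeq] at c
    have c' : (θ / 4 * (cnt d a n : ℝ)) * (cnt d (m - a) (n - a * d) : ℝ) ≤
        (((Fintype.card W : ℕ) : ℝ) * 2 ^ m * (cnt d a z : ℝ)) *
          (cnt d (m - a) (n - a * d) : ℝ) := by
      calc _ = θ / 4 * ((cnt d a n : ℝ) * (cnt d (m - a) (n - a * d) : ℝ)) := by ring
        _ ≤ _ := c
        _ = _ := by ring
    exact le_of_mul_le_mul_right c' hc2
  have e1 : (cnt d a n : ℝ) * (d.factorial : ℝ) ^ a =
      (n.choose (a * d) : ℝ) * ((a * d).factorial : ℝ) := by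
    exact_mod_cast cnt_choose d a n hadn
  have e2 : (cnt d a z : ℝ) * (d.factorial : ℝ) ^ a =
      (z.choose (a * d) : ℝ) * ((a * d).factorial : ℝ) := by
    exact_mod_cast cnt_choose d a z hadz
  have hf1 : (0 : ℝ) < (d.factorial : ℝ) ^ a := by
    have : (0 : ℝ) < d.factorial := by exact_mod_cast Nat.factorial_pos d
    positivity
  have hf2 : (0 : ℝ) < ((a * d).factorial : ℝ) := by exact_mod_cast Nat.factorial_pos _
  have hfin2 : (θ / 4 * (n.choose (a * d) : ℝ)) * ((a * d).factorial : ℝ) ≤
      (((Fintype.card W : ℕ) : ℝ) * 2 ^ m * (z.choose (a * d) : ℝ)) *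
        ((a * d).factorial : ℝ) := by
    calc (θ / 4 * (n.choose (a * d) : ℝ)) * ((a * d).factorial : ℝ)
        = θ / 4 * ((n.choose (a * d) : ℝ) * ((a * d).factorial : ℝ)) := by ring
      _ = θ / 4 * ((cnt d a n : ℝ) * (d.factorial : ℝ) ^ a) := by rw [e1]
      _ = (θ / 4 * (cnt d a n : ℝ)) * (d.factorial : ℝ) ^ a := by ring
      _ ≤ (((Fintype.card W : ℕ) : ℝ) * 2 ^ m * (cnt d a z : ℝ)) * (d.factorial : ℝ) ^ a :=
          mul_le_mul_of_nonneg_right hfin hf1.le
      _ = ((Fintype.card W : ℕ) : ℝ) * 2 ^ m * ((cnt d a z : ℝ) * (d.factorial : ℝ) ^ a) := by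
          ring
      _ = ((Fintype.card W : ℕ) : ℝ) * 2 ^ m *
          ((z.choose (a * d) : ℝ) * ((a * d).factorial : ℝ)) := by rw [e2]
      _ = _ := by ring
  have hfin3 := le_of_mul_le_mul_right hfin2 hf2
  linarith

end lower

end Pool.Agent.Lib.MP_8fffab_lc_RegRes
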