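import Mathlib
import Pool.Agent.Lib.MP_8fffab_lc_RegRes.Lower

/-!
# The asymptotic form of the lower bound
-/

namespace Pool.Agent.Lib.MP_8fffab_lc_RegRes

open Finset Filter

lemma one_add_half_le (θ : ℝ) (hθ : 0 < θ) : 1 + θ / 2 ≤ (2 : ℝ) ^ θ := by
  have h1 : (2 : ℝ) ^ θ = Real.exp (Real.log 2 * θ) := by
    rw [Real.rpow_def_of_pos (by norm_num)]
  have h2 := Real.add_one_le_exp (Real.log 2 * θ)
  have h3 := Real.log_two_gt_d9
  rw [h1]
  nlinarith

lemma choose_mul_pow_le (z k : ℕ) (x : ℝ) (hx : 0 ≤ x) :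
    (z.choose k : ℝ) * x ^ k ≤ (1 + x) ^ z := by
  rcases Nat.lt_or_ge z k with h | h
  · rw [Nat.choose_eq_zero_of_lt h]
    simp only [Nat.cast_zero, zero_mul]
    positivity
  · rw [add_comm, add_pow]
    have h0 : ∀ i ∈ range (z + 1), 0 ≤ x ^ i * 1 ^ (z - i) * (z.choose i : ℝ) := by
      intro i _
      positivity
    have := single_le_sum h0 (mem_range.mpr (Nat.lt_succ_of_le h))
    rw [one_pow, mul_one, mul_comm] at this
    exact this

lemma exists_large (θ C : ℝ) (hθ : 0 < θ) :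
    ∃ N : ℕ, ∀ n : ℕ, N ≤ n → (n : ℝ) * C ≤ (2 : ℝ) ^ (θ * n) := by
  have hb : 1 < (2 : ℝ) ^ θ := Real.one_lt_rpow (by norm_num) hθ
  have ht := tendsto_pow_const_div_const_pow_of_one_lt 1 hb
  have hc : 0 < 1 / (|C| + 1) := by positivity
  have hev := (ht.eventually (gt_mem_nhds hc))
  rw [eventually_atTop] at hev
  obtain ⟨N, hN⟩ := hev
  refine ⟨N, fun n hn => ?_⟩
  have h1 := hN n hn
  rw [pow_one, div_lt_iff₀ (by positivity)] at h1
  have h2 : ((2 : ℝ) ^ θ) ^ n = (2 : ℝ) ^ (θ * n) := by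
    rw [Real.rpow_mul (by norm_num), Real.rpow_natCast]
  rw [h2] at h1
  have h3 : (n : ℝ) * (|C| + 1) ≤ (2 : ℝ) ^ (θ * n) := by
    have : (n : ℝ) * (|C| + 1) < 1 / (|C| + 1) * (2 : ℝ) ^ (θ * n) * (|C| + 1) :=
      mul_lt_mul_of_pos_right h1 (by positivity)
    have e : 1 / (|C| + 1) * (2 : ℝ) ^ (θ * n) * (|C| + 1) = (2 : ℝ) ^ (θ * n) := by
      field_simp
    rw [e] at this
    exact this.le
  refine le_trans ?_ h3
  apply mul_le_mul_of_nonneg_left _ (Nat.cast_nonneg _)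
  linarith [le_abs_self C]

set_option maxHeartbeats 1600000 in
/-- The lower bound for regular resolution. -/
theorem lower_bound_aux (ε : ℝ) (hε : 0 < ε) : ∃ d : ℕ, 1 ≤ d ∧ ∃ m₀ : ℕ, ∀ m, m₀ ≤ m →
    ∀ (W : Type) [Fintype W] (n : ℕ), n = m * d + 1 →
      ∀ (R : Refutation (setCoverCNF (allSets n d) m) W),
      R.Regular → (2 : ℝ) ^ ((1 - ε) * (n : ℝ)) ≤ (Fintype.card W : ℝ) := by
  -- parameters
  set θ : ℝ := min ε 1 / 6 with hθdef
  have hθ : 0 < θ := by rw [hθdef]; positivity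
  have hθ1 : θ ≤ 1 / 6 := by
    rw [hθdef]
    have := min_le_right ε 1
    linarith
  have hθε : 6 * θ ≤ ε := by
    rw [hθdef]
    have := min_le_left ε 1
    linarith
  obtain ⟨r, hr⟩ := exists_nat_ge (2 / θ)
  have hr1 : 1 ≤ r := by
    by_contra hc
    have : r = 0 := by omega
    rw [this] at hr
    simp at hr
    have : 0 < 2 / θ := by positivity
    linarith
  obtain ⟨j, hj⟩ := exists_pow_lt_of_lt_one (show (0 : ℝ) < θ / 2 by positivity)
    (show (1 / 2 : ℝ) < 1 by norm_num)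
  have hj1 : 1 ≤ j := by
    by_contra hc
    have : j = 0 := by omega
    rw [this, pow_zero] at hj
    linarith
  have hj0 : (1 : ℝ) ≤ j := by exact_mod_cast hj1
  set δ : ℝ := θ / j with hδdef
  have hδ : 0 < δ := by rw [hδdef]; positivity
  have hδθ : δ ≤ θ := by
    rw [hδdef]
    exact div_le_self hθ.le hj0
  obtain ⟨J, hJ⟩ := exists_nat_ge (8 / θ)
  obtain ⟨d, hd⟩ := exists_nat_ge (4 * 2 ^ J / δ ^ 2 + 2 * ((2 * r ^ 2 : ℕ) : ℝ) / δ + 1 / θ + 1)
  have hp1 : 0 ≤ 4 * 2 ^ J / δ ^ 2 := by positivity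
  have hp2 : 0 ≤ 2 * ((2 * r ^ 2 : ℕ) : ℝ) / δ := by positivity
  have hp3 : 0 ≤ 1 / θ := by positivity
  have hd1 : (1 : ℝ) ≤ d := by linarith
  have hd1' : 1 ≤ d := by exact_mod_cast hd1
  have hdθ : 1 ≤ θ * d := by
    have : 1 / θ ≤ d := by linarith
    rw [div_le_iff₀ hθ] at this
    linarith
  have hdδ : 2 * ((2 * r ^ 2 : ℕ) : ℝ) ≤ δ * d := by
    have : 2 * ((2 * r ^ 2 : ℕ) : ℝ) / δ ≤ d := by linarith
    rw [div_le_iff₀ hδ] at this
    linarith
  have hdJ : 4 / (δ ^ 2 * d) ≤ (1 / 2 : ℝ) ^ J := by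
    have h1 : 4 * 2 ^ J / δ ^ 2 ≤ d := by linarith
    rw [div_le_iff₀ (by positivity)] at h1
    rw [div_le_iff₀ (by positivity)]
    have h2 : (1 / 2 : ℝ) ^ J * 2 ^ J = 1 := by
      rw [← mul_pow]; norm_num
    calc (4 : ℝ) = (1 / 2 : ℝ) ^ J * (4 * 2 ^ J) := by
          rw [mul_comm 4, ← mul_assoc, h2, one_mul]
      _ ≤ (1 / 2 : ℝ) ^ J * (d * δ ^ 2) := mul_le_mul_of_nonneg_left h1 (by positivity)
      _ = _ := by ring
  obtain ⟨N₁, hN₁⟩ := exists_large θ ((4 / θ) * 2 ^ (j + 4 * d)) hθ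
  obtain ⟨N₂, hN₂⟩ := exists_nat_ge (8 * 2 ^ J / θ)
  refine ⟨d, hd1', N₁ + N₂ + 3, fun m hm W _ n hn R hreg => ?_⟩
  by_contra hcon
  rw [not_le] at hcon
  have hm3 : 3 ≤ m := by omega
  have hm3' : (3 : ℝ) ≤ m := by exact_mod_cast hm3
  have hnm : m ≤ n := by
    rw [hn]
    have := Nat.le_mul_of_pos_right m (show 0 < d by omega)
    omega
  have hnR : (n : ℝ) = m * d + 1 := by rw [hn]; push_cast; ring
  have hn0 : (0 : ℝ) < n := by rw [hnR]; positivity
  -- the natural parameters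
  set a : ℕ := ⌊(1 / 2 - θ) * ((m : ℝ) - 1)⌋₊ with ha
  have ha0 : 0 ≤ (1 / 2 - θ) * ((m : ℝ) - 1) := by
    apply mul_nonneg <;> linarith
  have ha1 : (a : ℝ) ≤ (1 / 2 - θ) * ((m : ℝ) - 1) := Nat.floor_le ha0
  have ha2 : (1 / 2 - θ) * ((m : ℝ) - 1) < a + 1 := Nat.lt_floor_add_one _
  set t : ℕ := ⌊θ / 2 * (m : ℝ)⌋₊ with ht
  have ht1 : (t : ℝ) ≤ θ / 2 * m := Nat.floor_le (by positivity)
  have ht2 : θ / 2 * m < t + 1 := Nat.lt_floor_add_one _
  set k : ℕ := ⌈δ * n⌉₊ with hk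
  have hk1 : δ * n ≤ k := Nat.le_ceil _
  have hk2 : (k : ℝ) < δ * n + 1 := Nat.ceil_lt_add_one (by positivity)
  have hat : a + t ≤ m := by
    have : ((a + t : ℕ) : ℝ) ≤ m := by
      push_cast
      have : (1 / 2 - θ) * ((m : ℝ) - 1) ≤ 1 / 2 * m := by nlinarith
      have : θ / 2 * m ≤ 1 / 12 * m := by nlinarith
      linarith
    exact_mod_cast this
  have hle := lower R hn hd1' (by omega) hreg a r t (a * d + k) hr1 hat (θ := θ) (δ := δ)
    (by
      have hr0 : (0 : ℝ) < r := by exact_mod_cast hr1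
      rw [div_le_iff₀ hr0]
      rw [div_le_iff₀ hθ] at hr
      linarith)
    (by
      rw [div_le_iff₀ (by positivity)]
      nlinarith)
    ha1 hδ hdδ ht1 (by push_cast; linarith)
  apply hle
  · -- smallness
    have h1 : (4 / (δ ^ 2 * d)) ^ t ≤ ((1 / 2 : ℝ) ^ J) ^ t :=
      pow_le_pow_left₀ (by positivity) hdJ t
    have h2 : 4 * m ≤ J * t + J := by
      have h3 : 4 * (m : ℝ) ≤ J * (t + 1) := by
        have h4 : 8 ≤ J * θ := by
          rw [div_le_iff₀ hθ] at hJ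
          exact hJ
        have hJ0 : (0 : ℝ) ≤ J := Nat.cast_nonneg _
        calc 4 * (m : ℝ) ≤ (J * θ) / 2 * m := by nlinarith
          _ = J * (θ / 2 * m) := by ring
          _ ≤ J * (t + 1) := mul_le_mul_of_nonneg_left ht2.le hJ0
      have h5 : ((4 * m : ℕ) : ℝ) ≤ ((J * t + J : ℕ) : ℝ) := by
        push_cast
        linarith
      exact_mod_cast h5
    have h6 : (4 : ℝ) ^ m * ((1 / 2 : ℝ) ^ J) ^ t * 4 ^ m ≤ 2 ^ J := by
      rw [← pow_mul]
      have e1 : (4 : ℝ) ^ m * (1 / 2 : ℝ) ^ (J * t) * 4 ^ m = 2 ^ (4 * m) * (1 / 2 : ℝ) ^ (J * t) := by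
        have : (4 : ℝ) ^ m * 4 ^ m = 2 ^ (4 * m) := by
          rw [← mul_pow, pow_mul]
          norm_num
        rw [← this]
        ring
      rw [e1]
      calc (2 : ℝ) ^ (4 * m) * (1 / 2 : ℝ) ^ (J * t)
          ≤ (2 : ℝ) ^ (J * t + J) * (1 / 2 : ℝ) ^ (J * t) := by
            apply mul_le_mul_of_nonneg_right _ (by positivity)
            exact pow_le_pow_right₀ (by norm_num) h2
        _ = ((2 : ℝ) * (1 / 2)) ^ (J * t) * 2 ^ J := by
            rw [pow_add, mul_pow]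
            ring
        _ = 2 ^ J := by norm_num
    have h7 : 8 * 2 ^ J / θ ≤ (4 : ℝ) ^ m := by
      calc 8 * 2 ^ J / θ ≤ N₂ := hN₂
        _ ≤ m := by
          have : N₂ ≤ m := by omega
          exact_mod_cast this
        _ ≤ (4 : ℝ) ^ m := by
          have : m < 4 ^ m := Nat.lt_pow_self (by norm_num)
          exact_mod_cast this.le
    rw [div_le_iff₀ hθ] at h7
    have h8 : (0 : ℝ) < 4 ^ m := by positivity
    have h9 : (4 : ℝ) ^ m * ((1 / 2 : ℝ) ^ J) ^ t ≤ θ / 8 := by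
      have : (4 : ℝ) ^ m * ((1 / 2 : ℝ) ^ J) ^ t * 4 ^ m ≤ θ / 8 * 4 ^ m := by
        refine h6.trans ?_
        linarith
      exact le_of_mul_le_mul_right this h8
    refine le_trans ?_ h9
    exact mul_le_mul_of_nonneg_left h1 (by positivity)
  · -- the final comparison
    have hkn : a * d + k ≤ n := by
      have : ((a * d + k : ℕ) : ℝ) ≤ n := by
        push_cast
        have h1 : (a : ℝ) * d ≤ (1 / 2 - θ) * ((m : ℝ) - 1) * d :=
          mul_le_mul_of_nonneg_right ha1 (by linarith)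
        have h2 : (1 / 2 - θ) * ((m : ℝ) - 1) * d ≤ 1 / 2 * (m * d) := by
          have : (1 / 2 - θ) * ((m : ℝ) - 1) ≤ 1 / 2 * m := by nlinarith
          have h3 := mul_le_mul_of_nonneg_right this (show (0 : ℝ) ≤ d by linarith)
          linarith
        have h3 : δ * n ≤ 1 / 6 * n := mul_le_mul_of_nonneg_right (by linarith) hn0.le
        have h4 : (3 : ℝ) ≤ m * d := by nlinarith
        rw [hnR] at h3 ⊢
        rw [hnR] at hk2
        linarith
      exact_mod_cast this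
    -- upper bound for the binomial coefficient
    have hup : ((a * d + k).choose (a * d) : ℝ) ≤ (2 : ℝ) ^ (2 * θ * n + j) := by
      rw [Nat.choose_symm_add]
      have h1 := choose_mul_pow_le (a * d + k) k ((1 / 2) ^ j) (by positivity)
      have h2 : (1 + (1 / 2 : ℝ) ^ j) ^ (a * d + k) ≤ (2 : ℝ) ^ (θ * n) := by
        have h3 : 1 + (1 / 2 : ℝ) ^ j ≤ (2 : ℝ) ^ θ :=
          le_trans (by linarith) (one_add_half_le θ hθ)
        calc (1 + (1 / 2 : ℝ) ^ j) ^ (a * d + k) ≤ (1 + (1 / 2 : ℝ) ^ j) ^ n := by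
              apply pow_le_pow_right₀ _ hkn
              have : (0 : ℝ) ≤ (1 / 2) ^ j := by positivity
              linarith
          _ ≤ ((2 : ℝ) ^ θ) ^ n := pow_le_pow_left₀ (by positivity) h3 n
          _ = (2 : ℝ) ^ (θ * n) := by rw [Real.rpow_mul (by norm_num), Real.rpow_natCast]
      have h4 : (2 : ℝ) ^ (j * k) ≤ (2 : ℝ) ^ (θ * n + j) := by
        rw [← Real.rpow_natCast]
        apply Real.rpow_le_rpow_of_exponent_le (by norm_num)
        push_cast
        calc (j : ℝ) * k ≤ j * (δ * n + 1) := mul_le_mul_of_nonneg_left hk2.le (by linarith)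
          _ = (j * δ) * n + j := by ring
          _ = θ * n + j := by
            have : (j : ℝ) * δ = θ := by rw [hδdef]; field_simp
            rw [this]
      have h5 : ((a * d + k).choose k : ℝ) = ((a * d + k).choose k : ℝ) * ((1 / 2 : ℝ) ^ j) ^ k *
          2 ^ (j * k) := by
        have : ((1 / 2 : ℝ) ^ j) ^ k * 2 ^ (j * k) = 1 := by
          rw [← pow_mul, ← mul_pow]
          norm_num
        rw [mul_assoc, this, mul_one]
      rw [h5]
      calc ((a * d + k).choose k : ℝ) * ((1 / 2 : ℝ) ^ j) ^ k * 2 ^ (j * k)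
          ≤ (2 : ℝ) ^ (θ * n) * (2 : ℝ) ^ (θ * n + j) :=
            mul_le_mul (h1.trans h2) h4 (by positivity) (by positivity)
        _ = (2 : ℝ) ^ (2 * θ * n + j) := by
          rw [← Real.rpow_add (by norm_num)]
          congr 1
          ring
    -- 2 ^ m
    have h2m : (2 : ℝ) ^ m ≤ (2 : ℝ) ^ (θ * n) := by
      rw [← Real.rpow_natCast]
      apply Real.rpow_le_rpow_of_exponent_le (by norm_num)
      rw [hnR]
      nlinarith
    -- lower bound for the binomial coefficient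
    have h2ad : 2 * (a * d) ≤ n := by
      have : ((2 * (a * d) : ℕ) : ℝ) ≤ n := by
        push_cast
        have h1 : (a : ℝ) * d ≤ (1 / 2 - θ) * ((m : ℝ) - 1) * d :=
          mul_le_mul_of_nonneg_right ha1 (by linarith)
        have h2 : (1 / 2 - θ) * ((m : ℝ) - 1) * d ≤ 1 / 2 * (m * d) := by
          have : (1 / 2 - θ) * ((m : ℝ) - 1) ≤ 1 / 2 * m := by nlinarith
          have h3 := mul_le_mul_of_nonneg_right this (show (0 : ℝ) ≤ d by linarith)
          linarith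
        rw [hnR]
        linarith
      exact_mod_cast this
    have hlow : (2 : ℝ) ^ ((1 - 2 * θ) * n - 4 * d) ≤ n * (n.choose (a * d) : ℝ) := by
      rcases Nat.eq_zero_or_pos (a * d) with h0 | h0
      · rw [h0, Nat.choose_zero_right]
        -- a = 0 forces a small exponent
        have ha00 : (a : ℝ) = 0 := by
          rcases Nat.mul_eq_zero.mp h0 with h | h
          · exact_mod_cast h
          · omega
        rw [ha00] at ha2
        have h1 : (1 - 2 * θ) * (m : ℝ) ≤ 3 := by nlinarith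
        have h2 : (1 - 2 * θ) * (n : ℝ) - 4 * d ≤ 0 := by
          rw [hnR]
          have : (1 - 2 * θ) * ((m : ℝ) * d + 1) = ((1 - 2 * θ) * m) * d + (1 - 2 * θ) := by ring
          rw [this]
          nlinarith
        calc (2 : ℝ) ^ ((1 - 2 * θ) * n - 4 * d) ≤ 1 :=
              Real.rpow_le_one_of_one_le_of_nonpos (by norm_num) h2
          _ ≤ n * ((1 : ℕ) : ℝ) := by
            rw [Nat.cast_one, mul_one, hnR]
            have : 0 ≤ (m : ℝ) * d := by positivity
            linarith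
      · have h1 : (n.choose (a * d)) ≥ (2 * (a * d)).choose (a * d) :=
          Nat.choose_le_choose _ h2ad
        have h2 := Nat.four_pow_le_two_mul_self_mul_centralBinom (a * d) h0
        rw [Nat.centralBinom_eq_two_mul_choose] at h2
        have h3 : 4 ^ (a * d) ≤ n * n.choose (a * d) :=
          h2.trans (Nat.mul_le_mul h2ad h1)
        have h3' : (4 : ℝ) ^ (a * d) ≤ n * (n.choose (a * d) : ℝ) := by exact_mod_cast h3
        refine le_trans ?_ h3'
        have h4 : (4 : ℝ) ^ (a * d) = (2 : ℝ) ^ (2 * ((a : ℝ) * d)) := by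
          have : (4 : ℝ) = 2 ^ 2 := by norm_num
          rw [this, ← pow_mul, ← Real.rpow_natCast]
          congr 1
          push_cast
          ring
        rw [h4]
        apply Real.rpow_le_rpow_of_exponent_le (by norm_num)
        rw [hnR]
        have h5 : (1 / 2 - θ) * ((m : ℝ) - 1) * d ≤ (a + 1) * d :=
          mul_le_mul_of_nonneg_right ha2.le (by linarith)
        nlinarith
    have hbig := hN₁ n (by omega)
    -- combine
    have hW : (Fintype.card W : ℝ) < (2 : ℝ) ^ ((1 - 6 * θ) * n) := by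
      refine hcon.trans_le ?_
      apply Real.rpow_le_rpow_of_exponent_le (by norm_num)
      apply mul_le_mul_of_nonneg_right _ hn0.le
      linarith
    have hupp : ((Fintype.card W : ℕ) : ℝ) * 2 ^ m * ((a * d + k).choose (a * d) : ℝ) <
        (2 : ℝ) ^ ((1 - 6 * θ) * n) * (2 : ℝ) ^ (θ * n) * (2 : ℝ) ^ (2 * θ * n + j) := by
      have hc0 : (0 : ℝ) < ((a * d + k).choose (a * d) : ℝ) := by
        have : 0 < (a * d + k).choose (a * d) := Nat.choose_pos (by omega)
        exact_mod_cast this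
      calc ((Fintype.card W : ℕ) : ℝ) * 2 ^ m * ((a * d + k).choose (a * d) : ℝ)
          < (2 : ℝ) ^ ((1 - 6 * θ) * n) * 2 ^ m * ((a * d + k).choose (a * d) : ℝ) := by
            apply mul_lt_mul_of_pos_right _ hc0
            exact mul_lt_mul_of_pos_right hW (by positivity)
        _ ≤ (2 : ℝ) ^ ((1 - 6 * θ) * n) * (2 : ℝ) ^ (θ * n) * (2 : ℝ) ^ (2 * θ * n + j) := by
            apply mul_le_mul _ hup hc0.le (by positivity)
            exact mul_le_mul_of_nonneg_left h2m (by positivity)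
    refine hupp.trans_le ?_
    rw [← Real.rpow_add (by norm_num), ← Real.rpow_add (by norm_num)]
    have e1 : (1 - 6 * θ) * (n : ℝ) + θ * n + (2 * θ * n + j) = (1 - 3 * θ) * n + j := by ring
    rw [e1]
    -- multiply by n
    have h1 : (n : ℝ) * (2 : ℝ) ^ ((1 - 3 * θ) * n + j) ≤
        n * (θ / 4 * (n.choose (a * d) : ℝ)) := by
      have h2 : (n : ℝ) * (4 / θ * 2 ^ (j + 4 * d)) * (2 : ℝ) ^ ((1 - 3 * θ) * n - 4 * d) ≤
          n * (n.choose (a * d) : ℝ) := by
        calc (n : ℝ) * (4 / θ * 2 ^ (j + 4 * d)) * (2 : ℝ) ^ ((1 - 3 * θ) * n - 4 * d)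
            ≤ (2 : ℝ) ^ (θ * n) * (2 : ℝ) ^ ((1 - 3 * θ) * n - 4 * d) :=
              mul_le_mul_of_nonneg_right hbig (by positivity)
          _ = (2 : ℝ) ^ ((1 - 2 * θ) * n - 4 * d) := by
              rw [← Real.rpow_add (by norm_num)]
              congr 1
              ring
          _ ≤ _ := hlow
      have h3 : (2 : ℝ) ^ (j + 4 * d) * (2 : ℝ) ^ ((1 - 3 * θ) * n - 4 * d) =
          (2 : ℝ) ^ ((1 - 3 * θ) * n + j) := by
        rw [← Real.rpow_natCast, ← Real.rpow_add (by norm_num)]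
        congr 1
        push_cast
        ring
      have h4 : (n : ℝ) * (4 / θ * 2 ^ (j + 4 * d)) * (2 : ℝ) ^ ((1 - 3 * θ) * n - 4 * d) =
          4 / θ * (n * (2 : ℝ) ^ ((1 - 3 * θ) * n + j)) := by
        rw [← h3]
        ring
      rw [h4] at h2
      have h5 : θ / 4 * (4 / θ * (n * (2 : ℝ) ^ ((1 - 3 * θ) * n + j))) ≤
          θ / 4 * (n * (n.choose (a * d) : ℝ)) :=
        mul_le_mul_of_nonneg_left h2 (by positivity)
      have h6 : θ / 4 * (4 / θ * (n * (2 : ℝ) ^ ((1 - 3 * θ) * n + j))) =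
          n * (2 : ℝ) ^ ((1 - 3 * θ) * n + j) := by
        field_simp
      rw [h6] at h5
      linarith
    exact le_of_mul_le_mul_left h1 hn0

/-- The lower bound for regular resolution. -/
theorem lower_bound (ε : ℝ) (hε : 0 < ε) : ∃ d : ℕ, 1 ≤ d ∧ ∃ m₀ : ℕ, ∀ m, m₀ ≤ m →
    ∀ (W : Type) [Fintype W] (R : Refutation (setCoverCNF (allSets (m * d + 1) d) m) W),
      R.Regular → (2 : ℝ) ^ ((1 - ε) * ((m * d + 1 : ℕ) : ℝ)) ≤ (Fintype.card W : ℝ) := by
  obtain ⟨d, hd, m₀, h⟩ := lower_bound_aux ε hε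
  exact ⟨d, hd, m₀, fun m hm W _ R hreg => h m hm W _ rfl R hreg⟩

end Pool.Agent.Lib.MP_8fffab_lc_RegRes
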