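import Mathlib
import Pool.Agent.Lib.MP_8fffab_lc_RegRes.Defs

/-!
# The upper bound: the subset dynamic program as a regular refutation
-/

namespace Pool.Agent.Lib.MP_8fffab_lc_RegRes

open Finset

/-- If the height of a line is determined by the resolved variable, the refutation is regular. -/
lemma regular_of_height {V : Type} {Φ : Set (Clause V)} {W : Type} (R : Refutation Φ W)
    (H : V → ℕ) (h : ∀ w x p q, R.rule w = some (x, p, q) → R.height w = H x) : R.Regular := by
  have hlt : ∀ u w, Relation.TransGen R.Edge u w → R.height w < R.height u := by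
    intro u w huw
    have hedge : ∀ a b, R.Edge a b → R.height b < R.height a := by
      rintro a b ⟨x, p, q, hr, hb⟩
      have := R.resolve a x p q hr
      rcases hb with rfl | rfl
      · exact this.1
      · exact this.2.1
    induction huw with
    | single h => exact hedge _ _ h
    | tail _ h ih => exact (hedge _ _ h).trans ih
  intro u w x p q p' q' _ huw hu hw
  have h1 := hlt u w huw
  rw [h u x p q hu, h w x p' q' hw] at h1
  exact lt_irrefl _ h1

section construction

variable {n k N : ℕ} {ι : Type}

/-- the lines of the refutation -/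
abbrev Lines (n k N : ℕ) : Type :=
  (Fin (k + 1) × Finset (Fin n) × Fin N) ⊕
    ((Fin k × Finset (Fin n) × Fin N × Fin N) ⊕ (Fin k × Fin N × Fin N))

variable (S : ι → Finset (Fin n)) (e : ι ≃ Fin N) (hN : 0 < N)

/-- `X` is a union of at most `l` members of the family -/
def Reachable (l : ℕ) (X : Finset (Fin n)) : Prop :=
  ∃ T : Finset ι, T.card ≤ l ∧ X = T.biUnion S

/-- clause of a main line -/
def clM (k l : ℕ) (X : Finset (Fin n)) (i : ℕ) : Set ((Fin k × ι) × Bool) :=
  {y | y.2 = true ∧ (((y.1.1 : ℕ) < l ∧ ¬ S y.1.2 ⊆ X) ∨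
    ((y.1.1 : ℕ) = l ∧ (e y.1.2 : ℕ) < i))}

/-- clause of a line where the set `a` has been chosen -/
def clC (k l : ℕ) (X : Finset (Fin n)) (a i : ℕ) : Set ((Fin k × ι) × Bool) :=
  {y | (y.2 = true ∧ (((y.1.1 : ℕ) < l ∧ ¬ S y.1.2 ⊆ X) ∨
    ((y.1.1 : ℕ) = l ∧ (e y.1.2 : ℕ) ≠ a ∧ (e y.1.2 : ℕ) < i))) ∨
    (y.2 = false ∧ (y.1.1 : ℕ) = l ∧ (e y.1.2 : ℕ) = a)}

/-- clause of an initial line of the second kind -/
def clA (l : Fin k) (a i : Fin N) : Set ((Fin k × ι) × Bool) :=
  {((l, e.symm a), false), ((l, e.symm i), false)}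

/-- next main line -/
def nextM (l : Fin k) (X : Finset (Fin n)) (i : ℕ) : Lines n k N :=
  if h : i < N then Sum.inl (l.castSucc, X, ⟨i, h⟩) else Sum.inl (l.succ, X, ⟨0, hN⟩)

/-- next line after the choice of `a` -/
def nextC (l : Fin k) (X : Finset (Fin n)) (a : Fin N) (i : ℕ) : Lines n k N :=
  if h : i < N then Sum.inr (Sum.inl (l, X, a, ⟨i, h⟩))
  else Sum.inl (l.succ, X ∪ S (e.symm a), ⟨0, hN⟩)

open Classical in
/-- the clause of a line -/
noncomputable def lineClause : Lines n k N → Set ((Fin k × ι) × Bool)
  | Sum.inl (l, X, i) => if Reachable S l X then clM S e k l X i else Set.univ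
  | Sum.inr (Sum.inl (l, X, a, i)) =>
      if Reachable S l X ∧ a < i then clC S e k l X a i else Set.univ
  | Sum.inr (Sum.inr (l, a, i)) => if a ≠ i then clA e l a i else Set.univ

open Classical in
/-- the rule of a line -/
noncomputable def lineRule : Lines n k N → Option ((Fin k × ι) × Lines n k N × Lines n k N)
  | Sum.inl (l, X, i) =>
      if h : (l : ℕ) < k then
        if Reachable S l X then
          some ((⟨l, h⟩, e.symm i), nextM hN ⟨l, h⟩ X (i + 1), nextC S e hN ⟨l, h⟩ X i (i + 1))
        else none
      else none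
  | Sum.inr (Sum.inl (l, X, a, i)) =>
      if Reachable S l X ∧ a < i then
        some ((l, e.symm i), nextC S e hN l X a (i + 1), Sum.inr (Sum.inr (l, a, i)))
      else none
  | Sum.inr (Sum.inr (_, _, _)) => none

/-- the time of a line -/
def lineTime : Lines n k N → ℕ
  | Sum.inl (l, _, i) => l * (N + 1) + i
  | Sum.inr (Sum.inl (l, _, _, i)) => l * (N + 1) + i
  | Sum.inr (Sum.inr (_, _, _)) => (k + 1) * (N + 1)

/-- the height of a line -/
def lineHeight (w : Lines n k N) : ℕ := (k + 1) * (N + 1) - lineTime w

lemma time_nextM (l : Fin k) (X : Finset (Fin n)) (i : ℕ) (hi : i < N) :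
    l * (N + 1) + i < lineTime (nextM (n := n) hN l X (i + 1)) ∧
      lineTime (nextM (n := n) hN l X (i + 1)) ≤ (k + 1) * (N + 1) := by
  have hl := l.2
  unfold nextM
  split_ifs with h
  · simp only [lineTime, Fin.val_castSucc]
    constructor
    · omega
    · have : (l : ℕ) * (N + 1) ≤ k * (N + 1) := Nat.mul_le_mul_right _ hl.le
      have h2 : (k + 1) * (N + 1) = k * (N + 1) + (N + 1) := by ring
      omega
  · simp only [lineTime, Fin.val_succ]
    have h3 : ((l : ℕ) + 1) * (N + 1) = l * (N + 1) + (N + 1) := by ring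
    constructor
    · omega
    · have : ((l : ℕ) + 1) * (N + 1) ≤ (k + 1) * (N + 1) := Nat.mul_le_mul_right _ (by omega)
      omega

lemma time_nextC (l : Fin k) (X : Finset (Fin n)) (a : Fin N) (i : ℕ) (hi : i < N) :
    l * (N + 1) + i < lineTime (nextC S e hN l X a (i + 1)) ∧
      lineTime (nextC S e hN l X a (i + 1)) ≤ (k + 1) * (N + 1) := by
  have hl := l.2
  unfold nextC
  split_ifs with h
  · simp only [lineTime]
    constructor
    · omega
    · have : (l : ℕ) * (N + 1) ≤ k * (N + 1) := Nat.mul_le_mul_right _ hl.le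
      have h2 : (k + 1) * (N + 1) = k * (N + 1) + (N + 1) := by ring
      omega
  · simp only [lineTime, Fin.val_succ]
    have h3 : ((l : ℕ) + 1) * (N + 1) = l * (N + 1) + (N + 1) := by ring
    constructor
    · omega
    · have : ((l : ℕ) + 1) * (N + 1) ≤ (k + 1) * (N + 1) := Nat.mul_le_mul_right _ (by omega)
      omega

lemma clause_nextM (l : Fin k) (X : Finset (Fin n)) (i : Fin N) (hX : Reachable S l X) :
    lineClause S e (nextM hN l X (i + 1)) ⊆
      insert ((l, e.symm i), true) (clM S e k l X i) := by
  unfold nextM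
  split_ifs with h
  · simp only [lineClause, Fin.val_castSucc, if_pos hX]
    rintro ⟨⟨l', A⟩, b⟩ ⟨hb, hy⟩
    dsimp only at hb hy
    subst hb
    rcases hy with hy | ⟨hy1, hy2⟩
    · right
      exact ⟨rfl, Or.inl hy⟩
    · rcases Nat.lt_succ_iff_lt_or_eq.mp hy2 with h3 | h3
      · right
        exact ⟨rfl, Or.inr ⟨hy1, h3⟩⟩
      · left
        have e1 : l' = l := Fin.ext hy1
        have e2 : A = e.symm i := by
          rw [Equiv.eq_symm_apply]
          exact Fin.ext h3
        rw [e1, e2]
  · have hX' : Reachable S (l + 1) X := by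
      obtain ⟨T, hT, hXT⟩ := hX
      exact ⟨T, by omega, hXT⟩
    simp only [lineClause, Fin.val_succ, if_pos hX']
    rintro ⟨⟨l', A⟩, b⟩ ⟨hb, hy⟩
    dsimp only at hb hy
    subst hb
    rcases hy with ⟨hy1, hy2⟩ | ⟨hy1, hy2⟩
    · rcases Nat.lt_succ_iff_lt_or_eq.mp hy1 with h3 | h3
      · right
        exact ⟨rfl, Or.inl ⟨h3, hy2⟩⟩
      · by_cases h4 : (e A : ℕ) < i
        · right
          exact ⟨rfl, Or.inr ⟨h3, h4⟩⟩
        · left
          have h5 := (e A).2
          have e1 : l' = l := Fin.ext h3
          have e2 : A = e.symm i := by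
            rw [Equiv.eq_symm_apply]
            apply Fin.ext
            omega
          rw [e1, e2]
    · exact absurd hy2 (Nat.not_lt_zero _)

lemma reachable_insert [DecidableEq ι] {l : ℕ} {X : Finset (Fin n)} (hX : Reachable S l X)
    (A : ι) : Reachable S (l + 1) (X ∪ S A) := by
  obtain ⟨T, hT, hXT⟩ := hX
  refine ⟨insert A T, (card_insert_le _ _).trans (by omega), ?_⟩
  rw [biUnion_insert, ← hXT, union_comm]

lemma clause_nextC (l : Fin k) (X : Finset (Fin n)) (a i : Fin N) (hX : Reachable S l X)
    (hai : a ≤ i) :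
    lineClause S e (nextC S e hN l X a (i + 1)) ⊆ {y | (y.2 = true ∧
      (((y.1.1 : ℕ) < l ∧ ¬ S y.1.2 ⊆ X) ∨
      ((y.1.1 : ℕ) = l ∧ (e y.1.2 : ℕ) ≠ a ∧ (e y.1.2 : ℕ) < i + 1))) ∨
      (y.2 = false ∧ (y.1.1 : ℕ) = l ∧ (e y.1.2 : ℕ) = a)} := by
  classical
  unfold nextC
  split_ifs with h
  · have h2 : Reachable S l X ∧ a < ⟨i + 1, h⟩ := by
      refine ⟨hX, ?_⟩
      rw [Fin.lt_def]
      rw [Fin.le_def] at hai
      dsimp only
      omega
    simp only [lineClause, if_pos h2]
    intro y hy
    exact hy
  · have hX' : Reachable S (l + 1) (X ∪ S (e.symm a)) := reachable_insert S hX _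
    simp only [lineClause, Fin.val_succ, if_pos hX']
    rintro ⟨⟨l', A⟩, b⟩ ⟨hb, hy⟩
    dsimp only at hb hy
    subst hb
    left
    refine ⟨rfl, ?_⟩
    rcases hy with ⟨hy1, hy2⟩ | ⟨hy1, hy2⟩
    · rcases Nat.lt_succ_iff_lt_or_eq.mp hy1 with h3 | h3
      · left
        exact ⟨h3, fun h4 => hy2 (h4.trans subset_union_left)⟩
      · right
        refine ⟨h3, ?_, ?_⟩
        · intro h4
          have e2 : A = e.symm a := by
            rw [Equiv.eq_symm_apply]
            exact Fin.ext h4
          rw [e2] at hy2
          exact hy2 subset_union_right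
        · have h5 := (e A).2
          dsimp only
          omega
    · exact absurd hy2 (Nat.not_lt_zero _)

/-- The subset dynamic program, as a refutation. -/
noncomputable def dpRefutation (hno : ¬ HasCover S k) : Refutation (setCoverCNF S k)
    (Lines n k N) where
  clause := lineClause S e
  rule := lineRule S e hN
  height := lineHeight
  root := Sum.inl (0, ∅, ⟨0, hN⟩)
  root_empty := by
    have h0 : Reachable S ((0 : Fin (k + 1)) : ℕ) (∅ : Finset (Fin n)) :=
      ⟨∅, by simp, by simp⟩
    simp only [lineClause, if_pos h0]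
    ext y
    simp [clM]
  initial := by
    have hn : 0 < n := by
      by_contra hc
      have h0 : n = 0 := by omega
      subst h0
      exact hno ⟨∅, by simp, fun i => Fin.elim0 i⟩
    have hsome : ∃ C ∈ setCoverCNF S k, C ⊆ (Set.univ : Set ((Fin k × ι) × Bool)) :=
      ⟨_, Or.inl ⟨⟨0, hn⟩, rfl⟩, Set.subset_univ _⟩
    rintro (⟨l, X, i⟩ | ⟨l, X, a, i⟩ | ⟨l, a, i⟩) hr
    · simp only [lineRule] at hr
      simp only [lineClause]
      split_ifs with hX
      · split_ifs at hr with hl
        -- the last slot
        have hlk : (l : ℕ) = k := by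
          have := l.2
          omega
        have hXne : X ≠ univ := by
          rintro rfl
          obtain ⟨T, hT, hXT⟩ := hX
          apply hno
          refine ⟨T, by omega, fun i => ?_⟩
          have : i ∈ T.biUnion S := by
            rw [← hXT]
            exact mem_univ _
          rw [mem_biUnion] at this
          exact this
        obtain ⟨j, hj⟩ : ∃ j, j ∉ X := by
          by_contra hc
          push Not at hc
          exact hXne (eq_univ_iff_forall.mpr hc)
        refine ⟨_, Or.inl ⟨j, rfl⟩, ?_⟩
        rintro ⟨⟨l', A⟩, b⟩ ⟨hb, hjA⟩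
        refine ⟨hb, Or.inl ⟨?_, fun h => hj (h hjA)⟩⟩
        dsimp only
        rw [hlk]
        exact l'.2
      · exact hsome
    · simp only [lineRule] at hr
      simp only [lineClause]
      split_ifs at hr ⊢ with h
      exact hsome
    · simp only [lineClause]
      by_cases h : a = i
      · rw [if_neg (by simpa using h)]
        exact hsome
      · rw [if_pos h]
        refine ⟨_, Or.inr ⟨l, e.symm a, e.symm i, ?_, rfl⟩, subset_rfl⟩
        intro hc
        exact h (e.symm.injective hc)
  resolve := by
    rintro (⟨l, X, i⟩ | ⟨l, X, a, i⟩ | ⟨l, a, i⟩) x p q hr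
    · simp only [lineRule] at hr
      split_ifs at hr with hl hX
      injection hr with hr
      injection hr with hx hr
      injection hr with hp hq
      subst hx hp hq
      have t1 := time_nextM (n := n) hN ⟨l, hl⟩ X i i.2
      have t2 := time_nextC S e hN ⟨l, hl⟩ X i i i.2
      dsimp only at t1 t2
      refine ⟨?_, ?_, ?_, ?_⟩
      · unfold lineHeight
        have : lineTime (Sum.inl (l, X, i) : Lines n k N) = l * (N + 1) + i := rfl
        rw [this]
        omega
      · unfold lineHeight
        have : lineTime (Sum.inl (l, X, i) : Lines n k N) = l * (N + 1) + i := rfl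
        rw [this]
        omega
      · have := clause_nextM S e hN ⟨l, hl⟩ X i hX
        simp only [lineClause, if_pos hX]
        exact this
      · have := clause_nextC S e hN ⟨l, hl⟩ X i i hX le_rfl
        simp only [lineClause, if_pos hX]
        refine this.trans ?_
        rintro ⟨⟨l', A⟩, b⟩ hy
        simp only [Set.mem_ofPred_eq] at hy
        rcases hy with ⟨hb, hy⟩ | ⟨hb, hy1, hy2⟩
        · subst hb
          right
          refine ⟨rfl, ?_⟩
          rcases hy with hy | ⟨hy1, hy2, hy3⟩
          · exact Or.inl hy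
          · right
            refine ⟨hy1, ?_⟩
            change (e A : ℕ) < i
            omega
        · left
          subst hb
          have e1 : l' = ⟨l, hl⟩ := Fin.ext hy1
          have e2 : A = e.symm i := by
            rw [Equiv.eq_symm_apply]
            exact Fin.ext hy2
          rw [e1, e2]
    · simp only [lineRule] at hr
      split_ifs at hr with h
      injection hr with hr
      injection hr with hx hr
      injection hr with hp hq
      subst hx hp hq
      have t2 := time_nextC S e hN l X a i i.2
      have hlt : lineTime (Sum.inr (Sum.inl (l, X, a, i)) : Lines n k N) = l * (N + 1) + i := rfl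
      refine ⟨?_, ?_, ?_, ?_⟩
      · unfold lineHeight
        rw [hlt]
        omega
      · unfold lineHeight
        rw [hlt]
        have h5 : lineTime (Sum.inr (Sum.inr (l, a, i)) : Lines n k N) = (k + 1) * (N + 1) := rfl
        rw [h5]
        omega
      · have := clause_nextC S e hN l X a i h.1 h.2.le
        simp only [lineClause, if_pos h]
        refine this.trans ?_
        rintro ⟨⟨l', A⟩, b⟩ hy
        simp only [Set.mem_ofPred_eq] at hy
        rcases hy with ⟨hb, hy⟩ | ⟨hb, hy1, hy2⟩
        · subst hb
          rcases hy with hy | ⟨hy1, hy2, hy3⟩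
          · right
            exact Or.inl ⟨rfl, Or.inl hy⟩
          · rcases Nat.lt_succ_iff_lt_or_eq.mp hy3 with h3 | h3
            · right
              exact Or.inl ⟨rfl, Or.inr ⟨hy1, hy2, h3⟩⟩
            · left
              have e1 : l' = l := Fin.ext hy1
              have e2 : A = e.symm i := by
                rw [Equiv.eq_symm_apply]
                exact Fin.ext h3
              rw [e1, e2]
        · right
          exact Or.inr ⟨hb, hy1, hy2⟩
      · have hne : a ≠ i := ne_of_lt h.2
        simp only [lineClause, if_pos h, if_pos hne]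
        rintro y hy
        rcases hy with rfl | hy
        · right
          right
          refine ⟨rfl, rfl, ?_⟩
          simp
        · left
          exact hy
    · simp only [lineRule] at hr
      exact absurd hr (by simp)

lemma dp_regular (hno : ¬ HasCover S k) : (dpRefutation S e hN hno).Regular := by
  apply regular_of_height _ (fun x => (k + 1) * (N + 1) - (x.1 * (N + 1) + e x.2))
  rintro (⟨l, X, i⟩ | ⟨l, X, a, i⟩ | ⟨l, a, i⟩) x p q hr
  · simp only [dpRefutation, lineRule] at hr
    split_ifs at hr with hl hX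
    rw [Option.some.injEq, Prod.mk.injEq] at hr
    rw [← hr.1]
    simp [dpRefutation, lineHeight, lineTime]
  · simp only [dpRefutation, lineRule] at hr
    split_ifs at hr with h
    rw [Option.some.injEq, Prod.mk.injEq] at hr
    rw [← hr.1]
    simp [dpRefutation, lineHeight, lineTime]
  · simp [dpRefutation, lineRule] at hr

end construction

/-- The upper bound. -/
theorem upper_bound (n k : ℕ) (ι : Type) [Fintype ι] (S : ι → Finset (Fin n))
    (hno : ¬ HasCover S k) : ∃ (W : Type) (_ : Fintype W) (R : Refutation (setCoverCNF S k) W),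
      R.Regular ∧ Fintype.card W ≤ 3 * 2 ^ n * (k + 1) * (Fintype.card ι + 1) ^ 2 := by
  classical
  rcases Nat.eq_zero_or_pos (Fintype.card ι) with h0 | hpos
  · -- no sets at all
    have hempty : IsEmpty ι := Fintype.card_eq_zero_iff.mp h0
    have hn : 0 < n := by
      by_contra hc
      have h0 : n = 0 := by omega
      subst h0
      exact hno ⟨∅, by simp, fun i => Fin.elim0 i⟩
    refine ⟨Unit, inferInstance, ⟨fun _ => ∅, fun _ => none, fun _ => 0, (), rfl, ?_, ?_⟩, ?_, ?_⟩
    · intro _ _
      refine ⟨_, Or.inl ⟨⟨0, hn⟩, rfl⟩, ?_⟩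
      rintro ⟨⟨_, A⟩, _⟩ _
      exact hempty.elim A
    · intro _ _ _ _ h
      exact absurd h (by simp)
    · intro u w x p q p' q' _ _ hu
      exact absurd hu (by simp)
    · rw [h0]
      simp only [Fintype.card_unit]
      have : 0 < 2 ^ n := by positivity
      have h1 : 0 < 3 * 2 ^ n * (k + 1) := by positivity
      rw [zero_add, one_pow, mul_one]
      exact h1
  · refine ⟨Lines n k (Fintype.card ι), inferInstance,
      dpRefutation S (Fintype.equivFin ι) hpos hno, dp_regular _ _ _ _, ?_⟩
    simp only [Fintype.card_sum, Fintype.card_prod, Fintype.card_fin, Fintype.card_finset]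
    set N := Fintype.card ι
    have h1 : 1 ≤ 2 ^ n := Nat.one_le_two_pow
    nlinarith [Nat.mul_le_mul_left (k * (N * N)) h1, Nat.zero_le (2 ^ n * k * N),
      Nat.zero_le (2 ^ n * N), Nat.zero_le (2 ^ n * N * N), Nat.zero_le (2 ^ n * k * N * N),
      Nat.zero_le (2 ^ n * k), Nat.zero_le (2 ^ n)]

end Pool.Agent.Lib.MP_8fffab_lc_RegRes
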